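import Pool.Agent.W957.CH.Stm
import Pool.Agent.W957.CH.StmB

/-!
# CH-CORE: counting with fans
-/

set_option linter.all false

namespace Pool.Agent.W418.CHcore

open Finset
open Pool.Agent.W957.CH

variable {V : Type}

theorem pf_single (G : SimpleGraph V) (v : V) : PF G v v [v] :=
  ⟨⟨List.nodup_singleton v, List.isChain_singleton v⟩, rfl, rfl⟩

/-- a path followed by one more vertex -/
theorem pf_snoc {G : SimpleGraph V} {v p w : V} {l : List V} (h : PF G v p l) (ha : G.Adj p w)
    (hw : w ∉ l) : PF G v w (l ++ [w]) := by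
  obtain ⟨⟨h1, h2⟩, h3, h4⟩ := h
  refine ⟨⟨?_, ?_⟩, ?_, ?_⟩
  · rw [List.nodup_append]
    refine ⟨h1, List.nodup_singleton w, ?_⟩
    intro a ha' b hb
    rw [List.mem_singleton] at hb
    rw [hb]
    rintro rfl
    exact hw ha'
  · rw [List.isChain_append]
    refine ⟨h2, List.isChain_singleton w, ?_⟩
    intro x hx y hy
    rw [h4] at hx
    simp only [Option.mem_def, Option.some.injEq, List.head?_cons] at hx hy
    rw [← hx, ← hy]
    exact ha
  · rw [List.head?_append, h3]
    rfl
  · simp

/-- the part of a path up to one of its vertices -/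
theorem pf_take {G : SimpleGraph V} {v p w : V} {l1 l2 : List V} (h : PF G v p (l1 ++ w :: l2)) :
    PF G v w (l1 ++ [w]) := by
  obtain ⟨⟨h1, h2⟩, h3, h4⟩ := h
  have e : l1 ++ w :: l2 = (l1 ++ [w]) ++ l2 := by simp
  rw [e] at h1 h2 h3
  refine ⟨⟨(List.nodup_append.1 h1).1, (List.isChain_append.1 h2).1⟩, ?_, by simp⟩
  rw [List.head?_append] at h3
  cases hh : (l1 ++ [w]).head? with
  | none => simp at hh
  | some a => rw [hh] at h3; simpa using h3

open Classical in
theorem mem_nbr (G : SimpleGraph V) (A P : Finset V) (w : V) :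
    w ∈ nbr G A P ↔ w ∈ A ∧ w ∉ P ∧ ∃ p ∈ P, G.Adj p w := by
  unfold nbr
  rw [Finset.mem_filter]

theorem main (h1 : S_CORE1) (h2 : S_FAN) : S_CORE := by
  classical
  intro V _ G W T D d M hW hTW hT2 hDW hM hnb hmon hpath
  have hTne : T.Nonempty := by
    rw [← Finset.card_pos]; omega
  have key : ∀ v ∈ D, v ∉ T → ∃ s ∈ T, ∃ t ∈ T, s ≠ t ∧ ∃ l, PF G s t l ∧ (∀ x ∈ l, x ∈ W) ∧
      v ∈ l := by
    intro v hv hvT
    have hvW := hDW hv
    obtain ⟨s, hs, t, ht, hst, l1, l2, hl, hlW⟩ := h2 V G W T v hvW hTW hvT hTne (by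
      intro u hu huv
      set S : Finset V := W.filter (fun x => ∃ l, PF G v x l ∧ ∀ y ∈ l, y ∈ W ∧ y ≠ u) with hS
      have hSW : S ⊆ W := Finset.filter_subset _ _
      have hvS : v ∈ S := by
        rw [hS, Finset.mem_filter]
        refine ⟨hvW, [v], pf_single G v, ?_⟩
        intro y hy
        rw [List.mem_singleton] at hy
        rw [hy]
        exact ⟨hvW, fun h => huv h.symm⟩
      by_cases hdis : Disjoint S T
      · exfalso
        have hc := hnb S hSW ⟨v, hvS⟩ hdis
        have hsub : nbr G W S ⊆ {u} := by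
          intro w hw
          rw [mem_nbr] at hw
          obtain ⟨hwW, hwS, p, hpS, hpw⟩ := hw
          rw [Finset.mem_singleton]
          by_contra hwu
          apply hwS
          rw [hS, Finset.mem_filter] at hpS
          obtain ⟨hpW, l, hl, hlu⟩ := hpS
          rw [hS, Finset.mem_filter]
          refine ⟨hwW, ?_⟩
          by_cases hwl : w ∈ l
          · obtain ⟨l1, l2, rfl⟩ := List.append_of_mem hwl
            refine ⟨l1 ++ [w], pf_take hl, ?_⟩
            intro y hy
            apply hlu y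
            simp only [List.mem_append, List.mem_cons, List.not_mem_nil, or_false] at hy ⊢
            tauto
          · refine ⟨l ++ [w], pf_snoc hl hpw hwl, ?_⟩
            intro y hy
            rw [List.mem_append, List.mem_singleton] at hy
            rcases hy with hy | rfl
            · exact hlu y hy
            · exact ⟨hwW, hwu⟩
        have := Finset.card_le_card hsub
        rw [Finset.card_singleton] at this
        omega
      · rw [Finset.not_disjoint_iff] at hdis
        obtain ⟨t, htS, htT⟩ := hdis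
        rw [hS, Finset.mem_filter] at htS
        obtain ⟨_, l, hl, hlu⟩ := htS
        exact ⟨t, htT, l, hl, hlu⟩)
    exact ⟨s, hs, t, ht, hst, l1 ++ v :: l2, hl, hlW, by simp⟩
  set F : V × V → Finset V := fun p => if p.1 = p.2 then ∅ else
    D.filter (fun v => ∃ l, PF G p.1 p.2 l ∧ (∀ x ∈ l, x ∈ W) ∧ v ∈ l) with hF
  have hcov : D ⊆ T ∪ (T ×ˢ T).biUnion F := by
    intro v hv
    by_cases hvT : v ∈ T
    · exact Finset.mem_union_left _ hvT
    · obtain ⟨s, hs, t, ht, hst, l, hl, hlW, hvl⟩ := key v hv hvT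
      refine Finset.mem_union_right _ ?_
      rw [Finset.mem_biUnion]
      refine ⟨(s, t), Finset.mem_product.2 ⟨hs, ht⟩, ?_⟩
      simp only [hF]
      rw [if_neg hst, Finset.mem_filter]
      exact ⟨hv, l, hl, hlW, hvl⟩
  have hFM : ∀ p ∈ T ×ˢ T, (F p).card ≤ M := by
    intro p hp
    rw [Finset.mem_product] at hp
    simp only [hF]
    split_ifs with h
    · simp
    · exact h1 V G W D d M p.1 p.2 hDW (hTW hp.1) (hTW hp.2) h hM hmon hpath
  calc D.card ≤ (T ∪ (T ×ˢ T).biUnion F).card := Finset.card_le_card hcov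
    _ ≤ T.card + ((T ×ˢ T).biUnion F).card := Finset.card_union_le _ _
    _ ≤ T.card + (T ×ˢ T).card * M :=
        Nat.add_le_add_left (Finset.card_biUnion_le_card_mul _ _ _ hFM) _
    _ = T.card + T.card ^ 2 * M := by rw [Finset.card_product, pow_two]

end Pool.Agent.W418.CHcore
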