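import Mathlib

/-! Charts of `Proj` of a graded ring which embeds degreewise into a field. -/

set_option autoImplicit false

open AlgebraicGeometry CategoryTheory CategoryTheory.Limits HomogeneousLocalization

namespace Pool.Agent.W418

section

variable {A F σ : Type} [CommRing A] [Field F] [SetLike σ A] [AddSubgroupClass σ A] (𝒜 : ℕ → σ)
  [GradedRing 𝒜] (ε : A →+* F)

/-- `a / f ^ n ↦ ε a / (ε f) ^ n`. -/
noncomputable def psi (f : A) (hf : ε f ≠ 0) : Away 𝒜 f →+* F :=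
  (IsLocalization.Away.lift (S := Localization.Away f) f (g := ε) (IsUnit.mk0 _ hf)).comp
    (algebraMap (Away 𝒜 f) (Localization.Away f))

lemma psi_mk {D : ℕ} {f : A} (hfD : f ∈ 𝒜 D) (hf : ε f ≠ 0) (n : ℕ) (a : A)
    (ha : a ∈ 𝒜 (n • D)) : psi 𝒜 ε f hf (Away.mk 𝒜 hfD n a ha) = ε a / ε f ^ n := by
  unfold psi
  rw [RingHom.comp_apply, HomogeneousLocalization.algebraMap_apply, Away.val_mk,
    Localization.mk_eq_mk', IsLocalization.Away.lift, IsLocalization.lift_mk'_spec]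
  simp only [map_pow]
  field_simp

variable (hε : ∀ d, ∀ a ∈ 𝒜 d, ε a = 0 → a = 0)

include hε in
lemma psi_injective {D : ℕ} {f : A} (hfD : f ∈ 𝒜 D) (hf : ε f ≠ 0) :
    Function.Injective (psi 𝒜 ε f hf) := by
  rw [injective_iff_map_eq_zero]
  intro z hz
  obtain ⟨n, a, ha, rfl⟩ := Away.mk_surjective 𝒜 hfD z
  rw [psi_mk] at hz
  have h2 : ε a = 0 := by
    rcases div_eq_zero_iff.1 hz with h | h
    · exact h
    · exact absurd h (pow_ne_zero _ hf)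
  have h3 := hε _ a ha h2
  subst h3
  apply HomogeneousLocalization.val_injective
  rw [Away.val_mk, HomogeneousLocalization.val_zero, Localization.mk_zero]

lemma mem_range_psi {D : ℕ} {f : A} (hfD : f ∈ 𝒜 D) (hf : ε f ≠ 0) (y : F) :
    (∃ z, psi 𝒜 ε f hf z = y) ↔ ∃ (n : ℕ) (a : A) (_ : a ∈ 𝒜 (n • D)), y = ε a / ε f ^ n := by
  constructor
  · rintro ⟨z, rfl⟩
    obtain ⟨n, a, ha, rfl⟩ := Away.mk_surjective 𝒜 hfD z
    exact ⟨n, a, ha, psi_mk 𝒜 ε hfD hf n a ha⟩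
  · rintro ⟨n, a, ha, rfl⟩
    exact ⟨Away.mk 𝒜 hfD n a ha, psi_mk 𝒜 ε hfD hf n a ha⟩

lemma psi_comp_awayMap {D D' : ℕ} {f g x : A} (hfD : f ∈ 𝒜 D) (hg : g ∈ 𝒜 D') (hx : x = f * g)
    (hf : ε f ≠ 0) (hx0 : ε x ≠ 0) :
    (psi 𝒜 ε x hx0).comp (awayMap 𝒜 hg hx) = psi 𝒜 ε f hf := by
  ext z
  obtain ⟨n, a, ha, rfl⟩ := Away.mk_surjective 𝒜 hfD z
  rw [RingHom.comp_apply, awayMap_mk, psi_mk, psi_mk]
  subst hx
  have hg0 : ε g ≠ 0 := fun h => hx0 (by rw [map_mul, h, mul_zero])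
  rw [map_mul, map_mul, map_pow, mul_pow]
  field_simp

/-- The generic point of the chart. -/
noncomputable def gpt (f : A) (hf : ε f ≠ 0) :
    Spec (CommRingCat.of F) ⟶ Spec (CommRingCat.of (Away 𝒜 f)) :=
  Spec.map (CommRingCat.ofHom (psi 𝒜 ε f hf))

include hε in
lemma gpt_isDominant {D : ℕ} {f : A} (hfD : f ∈ 𝒜 D) (hf : ε f ≠ 0) :
    IsDominant (gpt 𝒜 ε f hf) := by
  refine ⟨?_⟩
  have h1 : DenseRange (PrimeSpectrum.comap (psi 𝒜 ε f hf)) := by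
    rw [PrimeSpectrum.denseRange_comap_iff_ker_le_nilRadical]
    rw [(RingHom.injective_iff_ker_eq_bot _).1 (psi_injective 𝒜 ε hε hfD hf)]
    exact bot_le
  exact h1

lemma gpt_comp_aux {D D' : ℕ} {f g x : A} (hfD : f ∈ 𝒜 D) (hD : 0 < D) (hg : g ∈ 𝒜 D')
    (hx : x = f * g) (hf : ε f ≠ 0) (hx0 : ε x ≠ 0) :
    gpt 𝒜 ε f hf ≫ Proj.awayι 𝒜 f hfD hD = gpt 𝒜 ε x hx0 ≫
      Proj.awayι 𝒜 x (hx ▸ SetLike.mul_mem_graded hfD hg) (hD.trans_le (D.le_add_right D')) := by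
  rw [← Proj.SpecMap_awayMap_awayι 𝒜 hfD hD hg hx]
  unfold gpt
  rw [← Category.assoc, ← Spec.map_comp, ← CommRingCat.ofHom_comp,
    psi_comp_awayMap 𝒜 ε hfD hg hx hf hx0]

omit [Field F] in
lemma awayι_congr {m m' : ℕ} (h : m = m') {f : A} (hf : f ∈ 𝒜 m) (hf' : f ∈ 𝒜 m') (hm : 0 < m)
    (hm' : 0 < m') : Proj.awayι 𝒜 f hf hm = Proj.awayι 𝒜 f hf' hm' := by
  subst h
  rfl

lemma gpt_comp {D D' : ℕ} {f g : A} (hfD : f ∈ 𝒜 D) (hD : 0 < D) (hg : g ∈ 𝒜 D') (hD' : 0 < D')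
    (hf : ε f ≠ 0) (hg0 : ε g ≠ 0) :
    gpt 𝒜 ε f hf ≫ Proj.awayι 𝒜 f hfD hD = gpt 𝒜 ε g hg0 ≫ Proj.awayι 𝒜 g hg hD' := by
  have hx0 : ε (f * g) ≠ 0 := by rw [map_mul]; exact mul_ne_zero hf hg0
  rw [gpt_comp_aux 𝒜 ε hfD hD hg rfl hf hx0,
    gpt_comp_aux 𝒜 ε hg hD' hfD (mul_comm f g) hg0 hx0]
  rw [awayι_congr 𝒜 (add_comm D D')]

include hε in
lemma away_isDomain {D : ℕ} {f : A} (hfD : f ∈ 𝒜 D) (hf : ε f ≠ 0) : IsDomain (Away 𝒜 f) :=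
  (psi_injective 𝒜 ε hε hfD hf).isDomain (psi 𝒜 ε f hf)

end

end Pool.Agent.W418
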