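import Pool.Agent.W418.Hyp1

/-! The evaluation of the homogeneous coordinate ring of a hypersurface in the function field. -/

set_option autoImplicit false
set_option linter.unusedSectionVars false
set_option linter.style.haveILetI false

open MvPolynomial

namespace Pool.Agent.W418

/-- Homogeneous polynomials at a scaled point. -/
theorem aeval_cone {K F F' : Type} [Field K] [Field F] [Algebra K F] [Field F'] [Algebra K F']
    [Algebra F F'] [IsScalarTower K F F'] {ρ : Type} (x : ρ → F) (T : F') (d : ℕ)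
    (P : MvPolynomial ρ K) (hP : P.IsHomogeneous d) :
    aeval (fun j => algebraMap F F' (x j) * T) P = algebraMap F F' (aeval x P) * T ^ d := by
  classical
  rw [aeval_def, eval₂_eq, aeval_def, eval₂_eq, map_sum, Finset.sum_mul]
  refine Finset.sum_congr rfl fun s hs => ?_
  have h1 : s.degree = d := by
    by_contra hne
    exact (mem_support_iff.1 hs) (hP.coeff_eq_zero hne)
  rw [map_mul, map_prod, ← IsScalarTower.algebraMap_apply, mul_assoc]
  congr 1
  simp only [mul_pow, map_pow]
  rw [Finset.prod_mul_distrib, Finset.prod_pow_eq_pow_sum]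
  rw [← h1]
  rfl

theorem hyp_dvd {K F : Type} [Field K] [Field F] [Algebra K F] {m : ℕ}
    (x : Fin (m + 2) → F) (hx0 : x 0 = 1)
    (hgen : IntermediateField.adjoin K (Set.range x) = ⊤)
    (b : Fin m → F) (htb : IsTranscendenceBasis K b)
    (G : MvPolynomial (Fin (m + 2)) K) (hG : Prime G) (e : ℕ) (hGe : G.IsHomogeneous e)
    (hGx : aeval x G = 0) (d : ℕ) (P : MvPolynomial (Fin (m + 2)) K) (hPd : P.IsHomogeneous d)
    (hP : aeval x P = 0) : G ∣ P := by
  obtain ⟨j₀, hind⟩ := exists_cone x hx0 hgen b htb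
  let F' := FractionRing (Polynomial F)
  let T : F' := algebraMap (Polynomial F) F' Polynomial.X
  have hw : ∀ j, algebraMap (Polynomial F) (FractionRing (Polynomial F))
      (Polynomial.C (x j) * Polynomial.X) = algebraMap F F' (x j) * T := by
    intro j
    rw [map_mul]
    rfl
  refine ker_dvd G hG (fun j => algebraMap F F' (x j) * T) ?_ j₀ ?_ P ?_
  · rw [aeval_cone x T e G hGe, hGx, map_zero, zero_mul]
  · have h2 : (fun j : {j : Fin (m + 2) // j ≠ j₀} => algebraMap F F' (x j) * T) =
      (fun j : {j : Fin (m + 2) // j ≠ j₀} =>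
      algebraMap (Polynomial F) (FractionRing (Polynomial F))
        (Polynomial.C (x j) * Polynomial.X)) := by
      funext j
      exact (hw j).symm
    rw [h2]
    exact hind
  · rw [aeval_cone x T d P hPd, hP, map_zero, zero_mul]

/-- The evaluation of the homogeneous coordinate ring. -/
theorem exists_eps {K F : Type} [Field K] [Field F] [Algebra K F] {m : ℕ}
    (x : Fin (m + 2) → F) (hx0 : x 0 = 1)
    (hgen : IntermediateField.adjoin K (Set.range x) = ⊤)
    (b : Fin m → F) (htb : IsTranscendenceBasis K b)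
    (G : MvPolynomial (Fin (m + 2)) K) (hG : Prime G) (e : ℕ) (hGe : G.IsHomogeneous e)
    (hGx : aeval x G = 0) {A : Type} [CommRing A] [Algebra K A]
    (π : MvPolynomial (Fin (m + 2)) K →ₐ[K] A) (hπ : Function.Surjective π)
    (hker : RingHom.ker π = Ideal.span {G}) (𝒜 : ℕ → Submodule K A)
    (h𝒜 : ∀ d, 𝒜 d = (homogeneousSubmodule (Fin (m + 2)) K d).map π.toLinearMap) :
    ∃ ε : A →ₐ[K] F, (∀ d, ∀ a ∈ 𝒜 d, ε a = 0 → a = 0) ∧
      (∀ d, (𝒜 d).map ε.toLinearMap = ((𝒜 1).map ε.toLinearMap) ^ d) ∧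
      (𝒜 1).map ε.toLinearMap = Submodule.span K (Set.range x) := by
  let eq1 : (MvPolynomial (Fin (m + 2)) K ⧸ RingHom.ker π) ≃ₐ[K] A :=
    Ideal.quotientKerAlgEquivOfSurjective hπ
  let ψ : (MvPolynomial (Fin (m + 2)) K ⧸ RingHom.ker π) →ₐ[K] F :=
    Ideal.Quotient.liftₐ (RingHom.ker π) (aeval x) (by
      intro a ha
      rw [hker] at ha
      obtain ⟨c, rfl⟩ := Ideal.mem_span_singleton.1 ha
      rw [map_mul, hGx, zero_mul])
  let ε : A →ₐ[K] F := ψ.comp (eq1.symm : A →ₐ[K] _)
  have hε : ∀ P, ε (π P) = aeval x P := by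
    intro P
    have h1 : eq1.symm (π P) = Ideal.Quotient.mk _ P := by
      rw [AlgEquiv.symm_apply_eq]
      rfl
    change ψ (eq1.symm (π P)) = _
    rw [h1]
    rfl
  have hcomp : ε.comp π = aeval x := AlgHom.ext hε
  have hmap : ∀ d, (𝒜 d).map ε.toLinearMap =
      (homogeneousSubmodule (Fin (m + 2)) K d).map (aeval x).toLinearMap := by
    intro d
    rw [h𝒜, ← Submodule.map_comp, ← hcomp]
    rfl
  refine ⟨ε, ?_, ?_, ?_⟩
  · intro d a ha hεa
    rw [h𝒜] at ha
    obtain ⟨P, hP, rfl⟩ := ha
    have h1 : aeval x P = 0 := by rw [← hε]; exact hεa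
    have h2 := hyp_dvd x hx0 hgen b htb G hG e hGe hGx d P hP h1
    have h3 : P ∈ RingHom.ker π := by
      rw [hker]
      exact Ideal.mem_span_singleton.2 h2
    exact h3
  · intro d
    rw [hmap, hmap, ← homogeneousSubmodule_one_pow, Submodule.map_pow]
  · rw [hmap, homogeneousSubmodule_one_eq_span_X, Submodule.map_span, ← Set.range_comp]
    congr 2
    funext j
    simp

end Pool.Agent.W418
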