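import Pool.Agent.W418.Gen5
import Pool.Agent.W418.Hyp2

/-! From modules over a finite extension of `ℤ` to modules over `ℤ`. -/

set_option autoImplicit false
set_option linter.unusedSectionVars false
set_option linter.style.haveILetI false

open AlgebraicGeometry CategoryTheory CategoryTheory.Limits HomogeneousLocalization

namespace Pool.Agent.W418

open Pool.Agent.H968R2.Quad

lemma chart_int {O F : Type} [CommRing O] [Field F] [Algebra O F] (M : Submodule O F)
    (f : F) (hf : f ∈ M) (hf0 : f ≠ 0) :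
    (Algebra.adjoin O {y : F | ∃ m ∈ M, y = m / f}).toSubring =
    (Algebra.adjoin ℤ {y : F | ∃ m ∈ M.restrictScalars ℤ, y = m / f}).toSubring := by
  apply le_antisymm
  · intro z hz
    have hz' : z ∈ Algebra.adjoin O {y : F | ∃ m ∈ M, y = m / f} := hz
    change z ∈ Algebra.adjoin ℤ {y : F | ∃ m ∈ M.restrictScalars ℤ, y = m / f}
    induction hz' using Algebra.adjoin_induction with
    | mem y hy =>
      obtain ⟨m, hm, rfl⟩ := hy
      exact Algebra.subset_adjoin ⟨m, hm, rfl⟩
    | algebraMap r =>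
      refine Algebra.subset_adjoin ⟨r • f, M.smul_mem r hf, ?_⟩
      rw [Algebra.smul_def, mul_div_assoc, div_self hf0, mul_one]
    | add a b ha hb iha ihb => exact add_mem (iha ha) (ihb hb)
    | mul a b ha hb iha ihb => exact mul_mem (iha ha) (ihb hb)
  · intro z hz
    have hz' : z ∈ Algebra.adjoin ℤ {y : F | ∃ m ∈ M.restrictScalars ℤ, y = m / f} := hz
    change z ∈ Algebra.adjoin O {y : F | ∃ m ∈ M, y = m / f}
    induction hz' using Algebra.adjoin_induction with
    | mem y hy =>
      obtain ⟨m, hm, rfl⟩ := hy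
      exact Algebra.subset_adjoin ⟨m, hm, rfl⟩
    | algebraMap r =>
      rw [eq_intCast]
      exact intCast_mem _ r
    | add a b ha hb iha ihb => exact add_mem (iha ha) (ihb hb)
    | mul a b ha hb iha ihb => exact mul_mem (iha ha) (ihb hb)

lemma exists_int_smul {O F : Type} [CommRing O] [IsDomain O] [Module.Finite ℤ O] [Field F]
    [Algebra O F] (M : Submodule O F) (y : F) (s : O) (hs : s ≠ 0) (hsy : s • y ∈ M) :
    ∃ r : ℤ, r ≠ 0 ∧ r • y ∈ M := by
  have h1 : IsAlgebraic ℤ s := (Algebra.IsIntegral.isIntegral (R := ℤ) s).isAlgebraic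
  obtain ⟨r, hr0, c, hc⟩ := h1.exists_nonzero_dvd (mem_nonZeroDivisors_of_ne_zero hs)
  refine ⟨r, hr0, ?_⟩
  have h2 : r • y = c • (s • y) := by
    have h3 : (r : O) = s * c := by
      rw [← hc, eq_intCast]
    rw [smul_smul, mul_comm c s, ← h3, zsmul_eq_mul, Algebra.smul_def, map_intCast]
  rw [h2]
  exact M.smul_mem _ hsy

lemma exists_smul_span {O K F : Type} [CommRing O] [IsDomain O] [Field K] [Algebra O K]
    [IsFractionRing O K] [Field F] [Algebra O F] [Algebra K F] [IsScalarTower O K F]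
    (S : Set F) (y : F) (hy : y ∈ Submodule.span K S) :
    ∃ s : O, s ≠ 0 ∧ s • y ∈ Submodule.span O S := by
  induction hy using Submodule.span_induction with
  | mem y hy => exact ⟨1, one_ne_zero, by rw [one_smul]; exact Submodule.subset_span hy⟩
  | zero => exact ⟨1, one_ne_zero, by rw [smul_zero]; exact Submodule.zero_mem _⟩
  | add a b _ _ iha ihb =>
    obtain ⟨s, hs, hsa⟩ := iha
    obtain ⟨t, ht, htb⟩ := ihb
    refine ⟨s * t, mul_ne_zero hs ht, ?_⟩
    rw [smul_add]
    refine Submodule.add_mem _ ?_ ?_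
    · rw [mul_comm, mul_smul]
      exact Submodule.smul_mem _ _ hsa
    · rw [mul_smul]
      exact Submodule.smul_mem _ _ htb
  | smul k y _ ihy =>
    obtain ⟨s, hs, hsy⟩ := ihy
    obtain ⟨p, q, hq, rfl⟩ := IsFractionRing.div_surjective (A := O) k
    have hq0 : q ≠ 0 := nonZeroDivisors.ne_zero hq
    have hqK : algebraMap O K q ≠ 0 := by
      intro h
      exact hq0 (IsFractionRing.injective O K (by rw [h, map_zero]))
    refine ⟨s * q, mul_ne_zero hs hq0, ?_⟩
    have h1 : (s * q) • (algebraMap O K p / algebraMap O K q) • y = p • (s • y) := by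
      rw [mul_smul]
      rw [← algebraMap_smul K q, ← algebraMap_smul K s, ← algebraMap_smul K p,
        ← algebraMap_smul K s y]
      simp only [smul_smul]
      congr 1
      field_simp
    rw [h1]
    exact Submodule.smul_mem _ _ hsy

theorem hasRegularModel_of_module' {O : Type} [CommRing O] [IsDomain O] [Module.Finite ℤ O]
    {K F A : Type} [Field K] [CharZero K] [Field F] [Algebra K F] [Algebra O F]
    [CommRing A] [Algebra K A]
    (𝒜 : ℕ → Submodule K A) [GradedAlgebra 𝒜] (ε : A →ₐ[K] F)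
    (hε : ∀ d, ∀ a ∈ 𝒜 d, ε a = 0 → a = 0)
    (hgen : ∀ d, (𝒜 d).map ε.toLinearMap = ((𝒜 1).map ε.toLinearMap) ^ d)
    (D : ℕ) (hD : 0 < D) (M : Submodule O F)
    (hML : ∀ y ∈ M, y ∈ (𝒜 1).map ε.toLinearMap ^ D)
    (hLM : ∀ y ∈ (𝒜 1).map ε.toLinearMap ^ D, ∃ s : O, s ≠ 0 ∧ s • y ∈ M)
    (hM : M.FG) (h0 : ∃ f ∈ M, f ≠ 0)
    (hreg : ∀ f ∈ M, f ≠ 0 →
      ∀ (q : Ideal (Algebra.adjoin O {y : F | ∃ m ∈ M, y = m / f})) [q.IsPrime],
      IsRegularLocalRing (Localization.AtPrime q))
    (X : Scheme.{0}) (hX : Nonempty (X ≅ Proj 𝒜)) : HasRegularModel X := by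
  refine hasRegularModel_of_module 𝒜 ε hε hgen D hD (M.restrictScalars ℤ) hML ?_ ?_ h0 ?_ X hX
  · intro y hy
    obtain ⟨s, hs, hsy⟩ := hLM y hy
    exact exists_int_smul M y s hs hsy
  · have h1 : Module.Finite O M := Module.Finite.iff_fg.2 hM
    have h2 : Module.Finite ℤ M := Module.Finite.trans O M
    have h3 : Module.Finite ℤ (M.restrictScalars ℤ) := h2
    exact Module.Finite.iff_fg.1 h3
  · intro f hf hf0 q hq
    have e := RingEquiv.subringCongr (chart_int M f hf hf0)
    exact regular_of_equiv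
      (R := Algebra.adjoin O {y : F | ∃ m ∈ M, y = m / f})
      (S := Algebra.adjoin ℤ {y : F | ∃ m ∈ M.restrictScalars ℤ, y = m / f}) e
      (fun q _ => hreg f hf hf0 q) q

end Pool.Agent.W418
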