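import Pool.Agent.H945R2.R.Props2
import Pool.Agent.H918R2.Quad.Glue

/-! The global module with control of the degree. -/

set_option autoImplicit false
set_option linter.unusedSectionVars false

open scoped Pointwise

namespace Pool.Agent.W418

open Pool.Agent.H918R2.Quad Pool.Agent.H945R2.D Pool.Agent.H945R2.S Pool.Agent.H945R2.E
  Pool.Agent.H945R2.R

section

variable {O K F : Type} [CommRing O] [IsDedekindDomain O] [Field K] [Algebra O K]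
  [IsFractionRing O K] [Field F] [Algebra K F] [Algebra O F] [IsScalarTower O K F]

/-- A finitely generated module generating a power of the coordinates, with regular charts. -/
def GoodModule (O : Type) {F : Type} [CommRing O] [Field F] [Algebra O F] {ι : Type} (x : ι → F) :
    Prop :=
  ∃ (D : ℕ) (M : Submodule O F), 1 ≤ D ∧ M.FG ∧ (∃ f ∈ M, f ≠ 0) ∧
    M ≤ Submodule.span O (Set.range x ^ D) ∧
    (∀ y ∈ Submodule.span O (Set.range x ^ D), ∃ s : O, s ≠ 0 ∧ s • y ∈ M) ∧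
    ∀ f ∈ M, f ≠ 0 → ∀ (q : Ideal (chart O M f)) [q.IsPrime],
      IsRegularLocalRing (Localization.AtPrime q)

include K in
theorem goodModule_of_loc {n : ℕ} (x : Fin (n + 2) → F) (hx0 : x 0 = 1)
    (S : Finset (Ideal O)) (hSm : ∀ 𝔭 ∈ S, 𝔭.IsMaximal ∧ 𝔭 ≠ ⊥) (hloc : ∀ 𝔭 ∈ S, LocMod 𝔭 x)
    (hout : ∀ 𝔭 : Ideal O, 𝔭.IsPrime → 𝔭 ∉ S → ∀ D : ℕ, 1 ≤ D → ∀ M : Submodule O F,
      M ≤ Submodule.span O (Set.range x ^ D) →
      (∀ y ∈ Submodule.span O (Set.range x ^ D), ∃ s, s ∉ 𝔭 ∧ s • y ∈ M) → RegAt 𝔭 M) :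
    GoodModule O x := by
  classical
  have hOK : Function.Injective (algebraMap O K) := IsFractionRing.injective O K
  have hOF : Function.Injective (algebraMap O F) := by
    rw [IsScalarTower.algebraMap_eq O K F]
    exact (algebraMap K F).injective.comp hOK
  have hS0 : ∀ 𝔭 ∈ S, 𝔭 ≠ ⊥ := fun 𝔭 h𝔭 => (hSm 𝔭 h𝔭).2
  have hSmax : ∀ 𝔭 ∈ S, 𝔭.IsMaximal := fun 𝔭 h𝔭 => (hSm 𝔭 h𝔭).1
  have hdeg : ∀ 𝔭 : Ideal O, ∃ D₀ : ℕ, 𝔭 ∈ S → ∀ D, D₀ ≤ D → ∃ P : Submodule O F,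
      (∀ y ∈ P, ∃ s, s ∉ 𝔭 ∧ s • y ∈ Submodule.span O (Set.range x ^ D)) ∧
      (∃ k : ℕ, ∀ c ∈ 𝔭 ^ k, ∀ y ∈ Submodule.span O (Set.range x ^ D), c • y ∈ P) ∧
      ∀ M : Submodule O F, M ≤ P → (∀ y ∈ P, ∃ s, s ∉ 𝔭 ∧ s • y ∈ M) → RegAt 𝔭 M := by
    intro 𝔭
    by_cases h𝔭 : 𝔭 ∈ S
    · obtain ⟨D₀, hD₀⟩ := hloc 𝔭 h𝔭
      exact ⟨D₀, fun _ => hD₀⟩
    · exact ⟨0, fun h => absurd h h𝔭⟩
  choose D₀ hD₀ using hdeg
  set D : ℕ := max 1 (S.sup D₀) with hD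
  have hD1 : 1 ≤ D := le_max_left _ _
  have hDS : ∀ 𝔭 ∈ S, D₀ 𝔭 ≤ D := fun 𝔭 h𝔭 => (Finset.le_sup h𝔭).trans (le_max_right _ _)
  have hbad : ∀ 𝔭 : Ideal O, ∃ P : Submodule O F, 𝔭 ∈ S →
      ((∀ y ∈ P, ∃ s, s ∉ 𝔭 ∧ s • y ∈ Submodule.span O (Set.range x ^ D)) ∧
      (∃ k : ℕ, ∀ c ∈ 𝔭 ^ k, ∀ y ∈ Submodule.span O (Set.range x ^ D), c • y ∈ P) ∧
      ∀ M : Submodule O F, M ≤ P → (∀ y ∈ P, ∃ s, s ∉ 𝔭 ∧ s • y ∈ M) → RegAt 𝔭 M) := by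
    intro 𝔭
    by_cases h𝔭 : 𝔭 ∈ S
    · obtain ⟨P, hP⟩ := hD₀ 𝔭 h𝔭 D (hDS 𝔭 h𝔭)
      exact ⟨P, fun _ => hP⟩
    · exact ⟨⊥, fun h => absurd h h𝔭⟩
  choose P hP using hbad
  obtain ⟨M, hMN, hMP, hM1, hM2⟩ := glue (Submodule.span O (Set.range x ^ D)) S hSmax P
    (fun 𝔭 h𝔭 => (hP 𝔭 h𝔭).1) (fun 𝔭 h𝔭 => (hP 𝔭 h𝔭).2.1)
  have hbotS : (⊥ : Ideal O) ∉ S := fun h => hS0 ⊥ h rfl
  have hMbot : ∀ y ∈ Submodule.span O (Set.range x ^ D), ∃ s : O, s ≠ 0 ∧ s • y ∈ M := by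
    intro y hy
    obtain ⟨s, hs, hsy⟩ := hM2 ⊥ Ideal.isPrime_bot hbotS y hy
    exact ⟨s, fun h => hs (by rw [h]; exact Ideal.zero_mem _), hsy⟩
  have h1G : (1 : F) ∈ Submodule.span O (Set.range x ^ D) := by
    apply Submodule.subset_span
    have h0 : (1 : F) ∈ Set.range x := ⟨0, hx0⟩
    have h1 : (1 : F) ^ D ∈ Set.range x ^ D := Set.pow_mem_pow h0
    rwa [one_pow] at h1
  obtain ⟨t, ht0, htM⟩ := hMbot 1 h1G
  have htF : algebraMap O F t ≠ 0 := fun h => ht0 (hOF (by rw [h, map_zero]))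
  refine ⟨D, M, hD1, ?_, ⟨t • 1, htM, ?_⟩, hMN, hMbot, ?_⟩
  · have hG3 : (Set.range x ^ D).Finite := by
      generalize D = k
      induction k with
      | zero => rw [pow_zero]; exact Set.finite_one
      | succ k ih => rw [pow_succ]; exact ih.mul (Set.finite_range x)
    exact Submodule.FG.of_le (Submodule.fg_span hG3) hMN
  · rw [Algebra.smul_def, mul_one]
    exact htF
  · intro f hfM hf0 q hq
    have hpp : (q.comap (algebraMap O (chart O M f))).IsPrime := inferInstance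
    by_cases h𝔭 : q.comap (algebraMap O (chart O M f)) ∈ S
    · exact (hP _ h𝔭).2.2 M (hMP _ h𝔭) (hM1 _ h𝔭) f hfM hf0 q rfl
    · exact hout _ hpp h𝔭 D hD1 M hMN (hM2 _ hpp h𝔭) f hfM hf0 q rfl

end

end Pool.Agent.W418
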