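import Pool.Agent.H945R2.D.IRR

/-! Diagonal forms are prime. -/

set_option autoImplicit false
set_option linter.unusedSectionVars false

open MvPolynomial

namespace Pool.Agent.W418

section

variable {K : Type} [Field K] [CharZero K]

/-- The diagonal form in the remaining variables. -/
noncomputable def dform (m p : ℕ) (b : Fin m → K) : MvPolynomial (Fin m) K :=
  ∑ i : Fin m, C (b i) * X i ^ p

theorem pderiv_dform (m p : ℕ) (b : Fin m → K) (j : Fin m) :
    pderiv j (dform m p b) = C (b j * (p : K)) * X j ^ (p - 1) := by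
  unfold dform
  rw [map_sum, Finset.sum_eq_single j]
  · rw [pderiv_C_mul, pderiv_pow, pderiv_X_self, C_mul]
    rw [mul_one]
    rw [map_natCast]
    ring
  · intro i _ hij
    rw [pderiv_C_mul, pderiv_pow, pderiv_X_of_ne hij]
    simp
  · intro h; exact absurd (Finset.mem_univ j) h

theorem constantCoeff_dform (m p : ℕ) (hp : p ≠ 0) (b : Fin m → K) :
    constantCoeff (dform m p b) = 0 := by
  unfold dform
  rw [map_sum]
  simp [hp]

theorem dform_ne_zero (m p : ℕ) (hp : p ≠ 0) (b : Fin m → K) (j : Fin m) (hb : b j ≠ 0) :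
    dform m p b ≠ 0 := by
  intro h
  have h1 := pderiv_dform m p b j
  rw [h, map_zero] at h1
  have h2 : (C (b j * (p : K)) : MvPolynomial (Fin m) K) ≠ 0 := by
    rw [Ne, C_eq_zero]
    exact mul_ne_zero hb (Nat.cast_ne_zero.mpr hp)
  have h3 : (X j : MvPolynomial (Fin m) K) ^ (p - 1) ≠ 0 := pow_ne_zero _ (X_ne_zero j)
  exact mul_ne_zero h2 h3 h1.symm

theorem dform_not_unit (m p : ℕ) (hp : p ≠ 0) (b : Fin m → K) : ¬ IsUnit (dform m p b) := by
  intro hu
  have h1 := hu.map (constantCoeff (R := K) (σ := Fin m))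
  rw [constantCoeff_dform m p hp] at h1
  exact not_isUnit_zero h1

theorem sq_not_dvd_dform (m p : ℕ) (hp : p ≠ 0) (b : Fin (m + 2) → K) (hb : ∀ j, b j ≠ 0)
    (π : MvPolynomial (Fin (m + 2)) K) (hπ : Prime π) : ¬ π ^ 2 ∣ dform (m + 2) p b := by
  rintro ⟨g, hg⟩
  have key : ∀ j, π ∣ (X j : MvPolynomial (Fin (m + 2)) K) := by
    intro j
    have h1 := pderiv_dform (m + 2) p b j
    have h2 : π ∣ pderiv j (dform (m + 2) p b) := by
      rw [hg, pderiv_mul, pow_two, pderiv_mul]
      refine Dvd.intro (pderiv j π * g + pderiv j π * g + π * pderiv j g) ?_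
      ring
    rw [h1] at h2
    have hu : IsUnit (C (b j * (p : K)) : MvPolynomial (Fin (m + 2)) K) := by
      have : IsUnit (b j * (p : K)) :=
        isUnit_iff_ne_zero.mpr (mul_ne_zero (hb j) (Nat.cast_ne_zero.mpr hp))
      exact this.map C
    have h3 : π ∣ (X j : MvPolynomial (Fin (m + 2)) K) ^ (p - 1) := by
      exact (hu.dvd_mul_left).mp h2
    exact hπ.dvd_of_dvd_pow h3
  have h5 : Associated π (X 0 : MvPolynomial (Fin (m + 2)) K) :=
    hπ.irreducible.associated_of_dvd (X_prime (i := 0)).irreducible (key 0)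
  have h6 : (X 0 : MvPolynomial (Fin (m + 2)) K) ∣ X 1 := h5.symm.dvd.trans (key 1)
  rw [X_dvd_X] at h6
  exact absurd h6 (by simp)

theorem irreducible_diag (m p : ℕ) (hm : 1 ≤ m) (hp : 1 ≤ p)
    (a : Fin (m + 2) → K) (ha : ∀ i, a i ≠ 0) :
    Irreducible (∑ i : Fin (m + 2), C (a i) * X i ^ p : MvPolynomial (Fin (m + 2)) K) := by
  have hp0 : p ≠ 0 := by omega
  obtain ⟨n, rfl⟩ : ∃ n, m = n + 1 := ⟨m - 1, by omega⟩
  rw [← MulEquiv.irreducible_iff (MvPolynomial.finSuccEquiv K (n + 2))]
  have key : MvPolynomial.finSuccEquiv K (n + 2)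
      (∑ i : Fin (n + 3), C (a i) * X i ^ p) =
      Polynomial.C (C (a 0)) * Polynomial.X ^ p +
        Polynomial.C (dform (n + 2) p (fun i => a i.succ)) := by
    have hC : ∀ r : K, MvPolynomial.finSuccEquiv K (n + 2) (C r) = Polynomial.C (C r) := by
      intro r
      rw [finSuccEquiv_apply, coe_eval₂Hom, eval₂_C]
      rfl
    rw [map_sum, Fin.sum_univ_succ]
    simp only [map_mul, map_pow, hC, finSuccEquiv_X_zero, finSuccEquiv_X_succ]
    unfold dform
    rw [map_sum]
    simp only [map_mul, map_pow]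
  rw [key]
  have hb : ∀ i : Fin (n + 2), (fun i : Fin (n + 2) => a i.succ) i ≠ 0 := fun i => ha _
  have hne := dform_ne_zero (n + 2) p hp0 (fun i => a i.succ) 0 (hb 0)
  have hnu := dform_not_unit (n + 2) p hp0 (fun i => a i.succ)
  obtain ⟨π, hπ, hd⟩ := WfDvdMonoid.exists_irreducible_factor hnu hne
  have hπp : Prime π := hπ.prime
  have hsq := sq_not_dvd_dform n p hp0 (fun i => a i.succ) hb π hπp
  generalize dform (n + 2) p (fun i => a i.succ) = h at hne hnu hd hsq
  have hc1 : (C (a 0) : MvPolynomial (Fin (n + 2)) K) ≠ 0 := by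
    rw [Ne, C_eq_zero]; exact ha 0
  have hu1 : IsUnit (C (a 0) : MvPolynomial (Fin (n + 2)) K) :=
    (isUnit_iff_ne_zero.mpr (ha 0)).map C
  have hdeg : (Polynomial.C (C (a 0)) * Polynomial.X ^ p + Polynomial.C h :
      Polynomial (MvPolynomial (Fin (n + 2)) K)).degree = p := by
    rw [Polynomial.degree_add_C]
    · exact Polynomial.degree_C_mul_X_pow p hc1
    · rw [Polynomial.degree_C_mul_X_pow p hc1]
      exact_mod_cast hp
  have hnat : (Polynomial.C (C (a 0)) * Polynomial.X ^ p + Polynomial.C h :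
      Polynomial (MvPolynomial (Fin (n + 2)) K)).natDegree = p :=
    Polynomial.natDegree_eq_of_degree_eq_some hdeg
  have hcoeff : ∀ k : ℕ, (Polynomial.C (C (a 0)) * Polynomial.X ^ p + Polynomial.C h :
      Polynomial (MvPolynomial (Fin (n + 2)) K)).coeff k =
      (if k = p then C (a 0) else 0) + (if k = 0 then h else 0) := by
    intro k
    rw [Polynomial.coeff_add, Polynomial.coeff_C_mul, Polynomial.coeff_X_pow,
      Polynomial.coeff_C]
    split_ifs <;> simp
  have hlc : (Polynomial.C (C (a 0)) * Polynomial.X ^ p + Polynomial.C h :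
      Polynomial (MvPolynomial (Fin (n + 2)) K)).leadingCoeff = C (a 0) := by
    rw [Polynomial.leadingCoeff, hnat, hcoeff, if_pos rfl, if_neg hp0, add_zero]
  refine Polynomial.irreducible_of_eisenstein_criterion (P := Ideal.span {π}) ?_ ?_ ?_ ?_ ?_ ?_
  · exact (Ideal.span_singleton_prime hπp.ne_zero).mpr hπp
  · rw [hlc, Ideal.mem_span_singleton]
    intro hdv
    exact hπ.not_isUnit (isUnit_of_dvd_unit hdv hu1)
  · intro k hk
    rw [hdeg] at hk
    have hk' : k ≠ p := by
      have : k < p := by exact_mod_cast hk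
      omega
    rw [hcoeff, if_neg hk', zero_add, Ideal.mem_span_singleton]
    split_ifs
    · exact hd
    · exact dvd_zero _
  · rw [hdeg]; exact_mod_cast hp
  · rw [hcoeff, if_neg hp0.symm, if_pos rfl, zero_add, Ideal.span_singleton_pow,
      Ideal.mem_span_singleton]
    exact hsq
  · intro r hr
    have : r ∣ (Polynomial.C (C (a 0)) * Polynomial.X ^ p + Polynomial.C h :
      Polynomial (MvPolynomial (Fin (n + 2)) K)).coeff p := by
      obtain ⟨q, hq⟩ := hr
      rw [hq, Polynomial.coeff_C_mul]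
      exact dvd_mul_right _ _
    rw [hcoeff, if_pos rfl, if_neg hp0, add_zero] at this
    exact isUnit_of_dvd_unit this hu1

theorem isHomogeneous_diag {K : Type} [Field K] (m p : ℕ) (a : Fin m → K) :
    (∑ i : Fin m, C (a i) * X i ^ p : MvPolynomial (Fin m) K).IsHomogeneous p := by
  refine IsHomogeneous.sum _ _ _ fun i _ => ?_
  have h1 : (C (a i) : MvPolynomial (Fin m) K).IsHomogeneous 0 := isHomogeneous_C _ _
  have h2 : (X i ^ p : MvPolynomial (Fin m) K).IsHomogeneous p := isHomogeneous_X_pow _ _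
  have h3 := h1.mul h2
  rwa [zero_add] at h3

end

end Pool.Agent.W418
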