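import Pool.Agent.W418.Scale
import Pool.Agent.W418.Desc
import Pool.Agent.H945R2.E.Props

/-! Local modules after a diagonal change of coordinates. -/

set_option autoImplicit false
set_option linter.unusedSectionVars false

open scoped Pointwise

namespace Pool.Agent.W418

open Pool.Agent.H918R2.Quad Pool.Agent.H945R2.E

/-- Dividing a high power of a prime by a nonzero element. -/
theorem exists_pow_dvd {O : Type} [CommRing O] [IsDedekindDomain O] (𝔭 : Ideal O) [𝔭.IsPrime]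
    (h0 : 𝔭 ≠ ⊥) (t : O) (ht : t ≠ 0) (k' : ℕ) :
    ∃ k : ℕ, ∀ c ∈ 𝔭 ^ k, ∃ s : O, s ∉ 𝔭 ∧ ∃ d ∈ 𝔭 ^ k', s * c = t * d := by
  have hp : Prime 𝔭 := Ideal.prime_of_isPrime h0 inferInstance
  have ht' : Ideal.span {t} ≠ ⊥ := by
    rw [Ne, Ideal.span_singleton_eq_bot]
    exact ht
  have hfin : FiniteMultiplicity 𝔭 (Ideal.span {t}) :=
    FiniteMultiplicity.of_prime_left hp ht'
  obtain ⟨J, hJ, hJ𝔭⟩ := hfin.exists_eq_pow_mul_and_not_dvd
  have hJ' : ¬ J ≤ 𝔭 := fun h => hJ𝔭 (Ideal.dvd_iff_le.2 h)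
  obtain ⟨s, hsJ, hs⟩ := Set.not_subset.1 hJ'
  refine ⟨multiplicity 𝔭 (Ideal.span {t}) + k', fun c hc => ⟨s, hs, ?_⟩⟩
  have h1 : s * c ∈ J * 𝔭 ^ (multiplicity 𝔭 (Ideal.span {t}) + k') := Ideal.mul_mem_mul hsJ hc
  have h2 : J * 𝔭 ^ (multiplicity 𝔭 (Ideal.span {t}) + k') = Ideal.span {t} * 𝔭 ^ k' := by
    rw [pow_add, ← mul_assoc, mul_comm J, ← hJ]
  rw [h2] at h1
  obtain ⟨d, hd, hdc⟩ := Ideal.mem_span_singleton_mul.1 h1
  exact ⟨d, hd, hdc.symm⟩

variable {O K F : Type} [CommRing O] [IsDedekindDomain O] [Field K] [Algebra O K]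
  [IsFractionRing O K] [Field F] [Algebra K F] [Algebra O F] [IsScalarTower O K F]

/-- Powers of the span after a diagonal change of coordinates. -/
theorem span_scale {ι : Type} (x x' : ι → F) (β : ι → K)
    (hx : ∀ i, x' i = algebraMap K F (β i) * x i) (D : ℕ) :
    Submodule.span K (Set.range x' ^ D) ≤ Submodule.span K (Set.range x ^ D) := by
  rw [← Submodule.span_pow, ← Submodule.span_pow]
  refine pow_le_pow_left' ?_ D
  rw [Submodule.span_le]
  rintro _ ⟨i, rfl⟩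
  rw [hx, ← Algebra.smul_def]
  exact Submodule.smul_mem _ _ (Submodule.subset_span ⟨i, rfl⟩)

/-- A common denominator. -/
theorem exists_common {G G' : Set F} (hG : G.Finite)
    (hle : Submodule.span K G ≤ Submodule.span K G') :
    ∃ c : O, c ≠ 0 ∧ ∀ y ∈ Submodule.span O G, c • y ∈ Submodule.span O G' := by
  classical
  have key : ∃ c : O, c ≠ 0 ∧ ∀ y ∈ G, c • y ∈ Submodule.span O G' := by
    have hG' : ∀ y ∈ G, y ∈ Submodule.span K G' := fun y hy => hle (Submodule.subset_span hy)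
    clear hle
    induction G, hG using Set.Finite.induction_on with
    | empty => exact ⟨1, one_ne_zero, fun y hy => absurd hy (Set.notMem_empty y)⟩
    | @insert a s _ _ ih =>
      obtain ⟨c, hc, hcs⟩ := ih fun y hy => hG' y (Set.mem_insert_of_mem _ hy)
      obtain ⟨d, hd, hda⟩ := exists_smul_span (O := O) (K := K) G' a (hG' a (Set.mem_insert _ _))
      refine ⟨c * d, mul_ne_zero hc hd, ?_⟩
      rintro y (rfl | hy)
      · rw [mul_smul]
        exact Submodule.smul_mem _ _ hda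
      · rw [mul_comm, mul_smul]
        exact Submodule.smul_mem _ _ (hcs y hy)
  obtain ⟨c, hc, hcG⟩ := key
  refine ⟨c, hc, fun y hy => ?_⟩
  induction hy using Submodule.span_induction with
  | mem y hy => exact hcG y hy
  | zero => rw [smul_zero]; exact Submodule.zero_mem _
  | add a b _ _ ha hb => rw [smul_add]; exact Submodule.add_mem _ ha hb
  | smul r a _ ha => rw [smul_comm]; exact Submodule.smul_mem _ _ ha

theorem range_pow_finite {ι : Type} [Finite ι] (x : ι → F) (D : ℕ) : (Set.range x ^ D).Finite := by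
  induction D with
  | zero => rw [pow_zero]; exact Set.finite_one
  | succ k ih => rw [pow_succ]; exact ih.mul (Set.finite_range x)

include K in
theorem locMod_scale {ι : Type} [Finite ι] (𝔭 : Ideal O) [𝔭.IsPrime] (h0 : 𝔭 ≠ ⊥)
    (x x' : ι → F) (β : ι → K) (hβ : ∀ i, β i ≠ 0)
    (hx : ∀ i, x' i = algebraMap K F (β i) * x i) (h : LocMod 𝔭 x') : LocMod 𝔭 x := by
  have hOK : Function.Injective (algebraMap O K) := IsFractionRing.injective O K
  have hOF : Function.Injective (algebraMap O F) := by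
    rw [IsScalarTower.algebraMap_eq O K F]
    exact (algebraMap K F).injective.comp hOK
  have h1𝔭 : (1 : O) ∉ 𝔭 := (Ideal.ne_top_iff_one 𝔭).1 Ideal.IsPrime.ne_top'
  have hmul : ∀ s t : O, s ∉ 𝔭 → t ∉ 𝔭 → s * t ∉ 𝔭 := fun s t hs ht h =>
    (Ideal.IsPrime.mem_or_mem ‹𝔭.IsPrime› h).elim hs ht
  have hx' : ∀ i, x i = algebraMap K F ((β i)⁻¹) * x' i := by
    intro i
    rw [hx, ← mul_assoc, ← map_mul, inv_mul_cancel₀ (hβ i), map_one, one_mul]
  obtain ⟨D₀, hD₀⟩ := h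
  refine ⟨D₀, fun D hD => ?_⟩
  obtain ⟨P', hP1, ⟨k', hP2⟩, hP3⟩ := hD₀ D hD
  obtain ⟨c₀, hc₀, hc₀N⟩ := exists_common (O := O) (K := K) (range_pow_finite x' D)
    (span_scale x x' β hx D)
  obtain ⟨c₁, hc₁, hc₁N⟩ := exists_common (O := O) (K := K) (range_pow_finite x D)
    (span_scale x' x (fun i => (β i)⁻¹) hx' D)
  set N := Submodule.span O (Set.range x ^ D) with hN
  set N' := Submodule.span O (Set.range x' ^ D) with hN'
  have hc₀F : algebraMap O F c₀ ≠ 0 := fun h => hc₀ (hOF (by rw [h, map_zero]))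
  let P : Submodule O F :=
    { carrier := {y | y ∈ N ∧ ∃ s : O, s ∉ 𝔭 ∧ ∃ p ∈ P', s • y = c₀ • p}
      zero_mem' := ⟨N.zero_mem, 1, h1𝔭, 0, P'.zero_mem, by rw [smul_zero, smul_zero]⟩
      add_mem' := by
        rintro y z ⟨hy, s, hs, p, hp, hsy⟩ ⟨hz, t, ht, q, hq, htz⟩
        refine ⟨N.add_mem hy hz, s * t, hmul s t hs ht, t • p + s • q,
          P'.add_mem (P'.smul_mem _ hp) (P'.smul_mem _ hq), ?_⟩
        rw [smul_add, smul_add, smul_comm c₀ t p, smul_comm c₀ s q, ← hsy, ← htz, smul_smul,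
          smul_smul, mul_comm t s]
      smul_mem' := by
        rintro r y ⟨hy, s, hs, p, hp, hsy⟩
        refine ⟨N.smul_mem r hy, s, hs, r • p, P'.smul_mem _ hp, ?_⟩
        rw [smul_comm s r y, hsy, smul_comm] }
  have hPmem : ∀ y, y ∈ P ↔ y ∈ N ∧ ∃ s : O, s ∉ 𝔭 ∧ ∃ p ∈ P', s • y = c₀ • p :=
    fun y => Iff.rfl
  refine ⟨P, ?_, ?_, ?_⟩
  · intro y hy
    exact ⟨1, h1𝔭, by rw [one_smul]; exact hy.1⟩
  · obtain ⟨k, hk⟩ := exists_pow_dvd 𝔭 h0 (c₀ * c₁) (mul_ne_zero hc₀ hc₁) k'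
    refine ⟨k, fun c hc y hy => ?_⟩
    obtain ⟨s, hs, d, hd, hscd⟩ := hk c hc
    refine ⟨N.smul_mem _ hy, s, hs, d • (c₁ • y), hP2 d hd _ (hc₁N y hy), ?_⟩
    rw [smul_smul, hscd, smul_smul, smul_smul]
    congr 1
    ring
  · intro M hMP hPM
    have hreg := hP3 P' le_rfl fun y hy => ⟨1, h1𝔭, by rw [one_smul]; exact hy⟩
    refine regAt_congr 𝔭 P' M (algebraMap O F c₀)⁻¹ (inv_ne_zero hc₀F) ?_ ?_ hreg
    · intro y hy
      obtain ⟨_, s, hs, p, hp, hsy⟩ := (hPmem y).1 (hMP hy)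
      refine ⟨s, hs, ?_⟩
      have h2 : s • ((algebraMap O F c₀)⁻¹ * y) = p := by
        rw [← mul_smul_comm, hsy, Algebra.smul_def, ← mul_assoc, inv_mul_cancel₀ hc₀F, one_mul]
      rw [h2]
      exact hp
    · intro y hy
      rw [inv_inv]
      obtain ⟨s₁, hs₁, hs₁y⟩ := hP1 y hy
      have h2 : s₁ • (algebraMap O F c₀ * y) ∈ P := by
        refine ⟨?_, 1, h1𝔭, s₁ • y, P'.smul_mem _ hy, ?_⟩
        · rw [← Algebra.smul_def, smul_comm]
          exact hc₀N _ hs₁y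
        · rw [one_smul, ← Algebra.smul_def, smul_comm]
      obtain ⟨s₂, hs₂, hs₂y⟩ := hPM _ h2
      exact ⟨s₂ * s₁, hmul _ _ hs₂ hs₁, by rw [mul_smul]; exact hs₂y⟩

end Pool.Agent.W418
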