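import Pool.Agent.W418.Diag1
import Pool.Agent.W418.Scale2
import Pool.Agent.W418.Prim
import Pool.Agent.H945R2.R.All

/-! Diagonal hypersurfaces: the local modules and the global module. -/

set_option autoImplicit false
set_option linter.unusedSectionVars false

open scoped Pointwise

namespace Pool.Agent.W418

open Pool.Agent.H918R2.Quad Pool.Agent.H945R2.D Pool.Agent.H945R2.S Pool.Agent.H945R2.E
  Pool.Agent.H945R2.R MvPolynomial

/-- The arithmetic hypotheses at the prime `𝔭`. -/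
def HypAt {O ι : Type} [CommRing O] (m : ℕ) (𝔭 : Ideal O) (a : ι → O) : Prop :=
  (∀ p : ℕ, p.Prime → p ∣ m → (p : O) ∈ 𝔭 →
    (p : O) ∉ 𝔭 ^ 2 ∨ ∃ n : ℕ, 2 ≤ n ∧ n ∣ p - 1 ∧ (p : O) ∈ 𝔭 ^ n ∧ (p : O) ∉ 𝔭 ^ (n + 1) ∧
      ∀ i, ∃ (z : ℤ) (y : O), a i - z * y ^ p ∈ 𝔭 ^ (2 * n)) ∧
  (∀ i, a i ∉ 𝔭 ^ 2) ∧ ((m : O) ∈ 𝔭 → ∀ i, a i ∉ 𝔭)

theorem arir_loc {O : Type} [CommRing O] [IsDedekindDomain O] [CharZero O] {ι : Type}
    [Fintype ι] (m : ℕ) (hm : 3 ≤ m) (hsq : Squarefree m) (a : ι → O)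
    (𝔭 : Ideal O) [h𝔭 : 𝔭.IsPrime] (ha : HypAt m 𝔭 a) {R : Type} [CommRing R] [IsDomain R]
    [Algebra O R] [IsLocalization.AtPrime R 𝔭] :
  ((m : O) ∈ 𝔭 → 𝔭 ≠ ⊥ ∧ (∃ p e : ℕ, p.Prime ∧ m = p * e ∧ IsUnit (e : R) ∧
    (p = 2 → 3 ≤ e ∧ Odd e) ∧ (Irreducible (p : R) ∨ (p ≠ 2 ∧ ∃ (n m' : ℕ) (π ν : R),
      Ram p n m' π ν ∧
      ∀ i, ∃ (z : ℤ) (y : R), (p : R) ^ 2 ∣ algebraMap O R (a i) - z * y ^ p))) ∧
    ∀ i, IsUnit (algebraMap O R (a i))) ∧
  ((m : O) ∉ 𝔭 → IsUnit (m : R) ∧ ∀ i, IsUnit (algebraMap O R (a i)) ∨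
    (a i ∈ 𝔭 ∧ 𝔭 ≠ ⊥ ∧ Irreducible (algebraMap O R (a i)))) := by
  classical
  obtain ⟨hp1, ha2, hma⟩ := ha
  have hnat : ∀ k : ℕ, algebraMap O R (k : O) = (k : R) := fun k => map_natCast _ _
  refine ⟨?_, ?_⟩
  · intro hmp
    have h0 : 𝔭 ≠ ⊥ := by
      rintro rfl
      have h1 := Ideal.mem_bot.1 hmp
      rw [Nat.cast_eq_zero] at h1
      omega
    refine ⟨h0, ?_, ?_⟩
    · obtain ⟨p, e, hp, hme, hpmem⟩ := ARIMaux.exists_prime 𝔭 m (by omega) hmp
      have hcop : Nat.Coprime p e := by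
        rw [hme] at hsq
        exact Nat.coprime_of_squarefree_mul hsq
      have he : (e : O) ∉ 𝔭 := by
        intro he
        have h1 : IsCoprime (p : ℤ) (e : ℤ) := Nat.isCoprime_iff_coprime.2 hcop
        obtain ⟨s, t, hst⟩ := h1
        have h2 : ((s : O)) * (p : O) + (t : O) * (e : O) = 1 := by
          have := congrArg (fun z : ℤ => (z : O)) hst
          simpa using this
        apply h𝔭.ne_top
        rw [Ideal.eq_top_iff_one, ← h2]
        exact Ideal.add_mem _ (Ideal.mul_mem_left _ _ hpmem) (Ideal.mul_mem_left _ _ he)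
      refine ⟨p, e, hp, hme, ?_, ?_, ?_⟩
      · rw [← hnat]
        exact IsLocalization.map_units R (⟨(e : O), he⟩ : 𝔭.primeCompl)
      · intro hp2
        have hodd : Odd e := by
          rw [hp2] at hcop
          exact (Nat.coprime_two_left.1 hcop)
        refine ⟨?_, hodd⟩
        obtain ⟨r, hr⟩ := hodd
        rw [hp2] at hme
        omega
      · rcases hp1 p hp ⟨e, hme⟩ hpmem with h1 | ⟨n, hn, hnp, h1, h2, h3⟩
        · left
          rw [← hnat]
          exact ARIaux.irr 𝔭 h0 hpmem h1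
        · right
          refine ⟨?_, ARIRaux.ram 𝔭 h0 a p n hp.one_le hn hnp h1 h2 h3⟩
          rintro rfl
          have := Nat.le_of_dvd (by norm_num) hnp
          omega
    · intro i
      exact IsLocalization.map_units R (⟨a i, hma hmp i⟩ : 𝔭.primeCompl)
  · intro hp
    refine ⟨?_, ?_⟩
    · rw [← hnat]
      exact IsLocalization.map_units R (⟨(m : O), hp⟩ : 𝔭.primeCompl)
    · intro i
      by_cases hi : a i ∈ 𝔭
      · right
        have h0 : 𝔭 ≠ ⊥ := by
          rintro rfl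
          apply ha2 i
          rw [Ideal.mem_bot.1 hi]
          exact Ideal.zero_mem _
        exact ⟨hi, h0, ARIaux.irr 𝔭 h0 hi (ha2 i)⟩
      · left
        exact IsLocalization.map_units R (⟨a i, hi⟩ : 𝔭.primeCompl)

section

variable {O K F : Type} [CommRing O] [IsDedekindDomain O] [Field K] [Algebra O K]
  [IsFractionRing O K] [Field F] [Algebra K F] [Algebra O F] [IsScalarTower O K F]

theorem diag_good [CharZero O] (𝔭 : Ideal O) [𝔭.IsPrime] {n : ℕ}
    (m : ℕ) (hm : 3 ≤ m) (hm𝔭 : (m : O) ∉ 𝔭) (a : Fin (n + 2) → O)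
    (hap : ∀ i, a i ∉ 𝔭)
    (x : Fin (n + 2) → F) (hx0 : x 0 = 1)
    (hrel : ∑ i, algebraMap O F (a i) * x i ^ m = 0)
    (hgen : IntermediateField.adjoin K (Set.range x) = ⊤)
    (b : Fin n → F) (htb : IsTranscendenceBasis K b) (D : ℕ) (hD : 1 ≤ D)
    (M : Submodule O F) (hM : M ≤ Submodule.span O (Set.range x ^ D))
    (hM2 : ∀ y ∈ Submodule.span O (Set.range x ^ D), ∃ s, s ∉ 𝔭 ∧ s • y ∈ M) : RegAt 𝔭 M := by
  let R := Localization.subalgebra.ofField K 𝔭.primeCompl 𝔭.primeCompl_le_nonZeroDivisors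
  have : IsLocalization.AtPrime R 𝔭 := Localization.subalgebra.isLocalization_ofField K _ _
  have : IsFractionRing R K := Localization.subalgebra.isFractionRing_ofField K _ _
  have : IsDedekindDomain R := IsLocalization.isDedekindDomain O
    𝔭.primeCompl_le_nonZeroDivisors R
  have : IsScalarTower O R F := IsScalarTower.of_algebraMap_eq fun r => by
    rw [IsScalarTower.algebraMap_apply O K F]; rfl
  have : IsScalarTower R K F := IsScalarTower.of_algebraMap_eq fun r => rfl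
  have h1 : IsUnit (m : R) := by
    have hnat : algebraMap O R (m : O) = (m : R) := map_natCast _ _
    rw [← hnat]
    exact IsLocalization.map_units R (⟨(m : O), hm𝔭⟩ : 𝔭.primeCompl)
  have h3 : ∀ i, IsUnit (algebraMap O R (a i)) := fun i =>
    IsLocalization.map_units R (⟨a i, hap i⟩ : 𝔭.primeCompl)
  have hG : S_GOODM := GOODM_ok GD1M_ok GD2M_ok
  exact hG (R := R) (K := K) 𝔭 (IsFractionRing.injective R K) m
    (by omega) h1 a (Or.inl h3) x hx0 hrel hgen b htb D hD M hM hM2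

theorem diag_bad [CharZero O] [CharZero K] (𝔭 : Ideal O)
    [𝔭.IsPrime] (h0 : 𝔭 ≠ ⊥) (hfin : Finite (O ⧸ 𝔭)) {n : ℕ} (m : ℕ) (hm : 3 ≤ m)
    (hsq : Squarefree m) (a : Fin (n + 2) → O) (ha : HypAt m 𝔭 a)
    (x : Fin (n + 2) → F) (hx0 : x 0 = 1)
    (hrel : ∑ i, algebraMap O F (a i) * x i ^ m = 0)
    (hgen : IntermediateField.adjoin K (Set.range x) = ⊤)
    (hlin : ∀ e : ℕ, 1 ≤ e → e < m → LinearIndependent K (fun i => x i ^ e))
    (b : Fin n → F) (htb : IsTranscendenceBasis K b) : LocMod 𝔭 x := by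
  let R := Localization.subalgebra.ofField K 𝔭.primeCompl 𝔭.primeCompl_le_nonZeroDivisors
  have : IsLocalization.AtPrime R 𝔭 := Localization.subalgebra.isLocalization_ofField K _ _
  have : IsFractionRing R K := Localization.subalgebra.isFractionRing_ofField K _ _
  have hdvr : IsDiscreteValuationRing R :=
    IsLocalization.AtPrime.isDiscreteValuationRing_of_dedekind_domain O h0 R
  have : IsScalarTower O R F := IsScalarTower.of_algebraMap_eq fun r => by
    rw [IsScalarTower.algebraMap_apply O K F]; rfl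
  have : IsScalarTower R K F := IsScalarTower.of_algebraMap_eq fun r => rfl
  have hmax : 𝔭.IsMaximal := Ideal.IsPrime.isMaximal ‹_› h0
  have hfin' : Finite (IsLocalRing.ResidueField R) :=
    Finite.of_equiv _ (IsLocalization.AtPrime.equivQuotMaximalIdeal 𝔭 R).toEquiv
  have hAR := arir_loc m hm hsq a 𝔭 ha (R := R)
  by_cases hm𝔭 : (m : O) ∈ 𝔭
  · obtain ⟨-, ⟨p, e, hp, hpe, hu, h2e, hcase⟩, h2⟩ := hAR.1 hm𝔭
    have he : 1 ≤ e := by
      rcases Nat.eq_zero_or_pos e with h | h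
      · rw [h, mul_zero] at hpe
        omega
      · exact h
    have hem : e < m := by
      rw [hpe]
      have := hp.two_le
      nlinarith
    have hlin' := hlin e he hem
    rw [hpe] at hrel
    rcases hcase with h1 | ⟨hp2, k, m', π, ν, hram, hz⟩
    · by_cases hp2 : p = 2
      · obtain ⟨he3, hodd⟩ := h2e hp2
        exact bade' (R := R) (K := K) 𝔭 p e hp2 h1 he3 hodd hu a h2 x hx0 hrel hgen hlin' b htb
      · have hB : BadM := badM bad' (BADS_ok locs' DEGS_ok FINS_ok)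
        exact hB (R := R) (K := K)
          𝔭 p e hp hp2 h1 he hu a h2 x hx0 hrel hgen hlin' b htb
    · exact badr' (R := R) (K := K) 𝔭 p e k m' π ν hram hp hp2 he hu a h2 hz x hx0 hrel hgen hlin'
        b htb
  · obtain ⟨h1, h2⟩ := hAR.2 hm𝔭
    exact badt' (R := R) (K := K) 𝔭 m hm h1 a (fun i => (h2 i).imp_right fun h => h.2.2) x hx0 hrel
      hgen b htb

/-- The local condition on the coefficients `c` in the fraction field. -/
def HypK (O : Type) {K ι : Type} [CommRing O] [Field K] [Algebra O K] (m : ℕ) (c : ι → K) : Prop :=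
  ∀ 𝔭 : Ideal O, 𝔭.IsPrime → 𝔭 ≠ ⊥ → ∃ (a : ι → O) (b : ι → K) (l : K), l ≠ 0 ∧ (∀ i, b i ≠ 0) ∧
    (∀ i, algebraMap O K (a i) = l * c i * b i ^ m) ∧ HypAt m 𝔭 a

theorem diag_goodModule [CharZero K] (hfin : ∀ 𝔭 : Ideal O, 𝔭.IsPrime → 𝔭 ≠ ⊥ → Finite (O ⧸ 𝔭))
    {n : ℕ} (m : ℕ) (hm : 3 ≤ m) (hsq : Squarefree m) (c : Fin (n + 2) → K) (hc : ∀ i, c i ≠ 0)
    (hH : HypK O m c) (x : Fin (n + 2) → F) (hx0 : x 0 = 1)
    (hrel : ∑ i, algebraMap K F (c i) * x i ^ m = 0)
    (hgen : IntermediateField.adjoin K (Set.range x) = ⊤)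
    (hlin : ∀ e : ℕ, 1 ≤ e → e < m → LinearIndependent K (fun i => x i ^ e))
    (b : Fin n → F) (htb : IsTranscendenceBasis K b) : GoodModule O x := by
  classical
  have hOK : Function.Injective (algebraMap O K) := IsFractionRing.injective O K
  have hO : CharZero O := ⟨fun i j h => Nat.cast_injective (R := K) (by
    simpa only [map_natCast] using congrArg (algebraMap O K) h)⟩
  obtain ⟨d, hd⟩ := IsLocalization.exist_integer_multiples_of_finite (nonZeroDivisors O) c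
  choose a ha using hd
  have hd0 : (d : O) ≠ 0 := nonZeroDivisors.ne_zero d.2
  have hdK : algebraMap O K d ≠ 0 := fun h => hd0 (hOK (by rw [h, map_zero]))
  have ha' : ∀ i, algebraMap O K (a i) = algebraMap O K d * c i := by
    intro i
    rw [ha i, Algebra.smul_def]
  have ha0 : ∀ i, a i ≠ 0 := by
    intro i h
    have h1 := ha' i
    rw [h, map_zero] at h1
    exact mul_ne_zero hdK (hc i) h1.symm
  have hrelO : ∑ i, algebraMap O F (a i) * x i ^ m = 0 := by
    have h1 : ∑ i, algebraMap O F (a i) * x i ^ m =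
        algebraMap K F (algebraMap O K d) * ∑ i, algebraMap K F (c i) * x i ^ m := by
      rw [Finset.mul_sum]
      refine Finset.sum_congr rfl fun i _ => ?_
      rw [IsScalarTower.algebraMap_apply O K F, ha' i, map_mul, mul_assoc]
    rw [h1, hrel, mul_zero]
  have hc0 : (m : O) * ∏ i, a i ≠ 0 := by
    refine mul_ne_zero ?_ ?_
    · exact Nat.cast_ne_zero.2 (by omega)
    · rw [Finset.prod_ne_zero_iff]
      exact fun i _ => ha0 i
  have hDspan : Ideal.span {(m : O) * ∏ i, a i} ≠ ⊥ := by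
    rw [Ne, Ideal.span_singleton_eq_bot]
    exact hc0
  let S : Finset (Ideal O) :=
    (UniqueFactorizationMonoid.normalizedFactors (Ideal.span {(m : O) * ∏ i, a i})).toFinset
  have hS : ∀ 𝔭, 𝔭 ∈ S ↔ 𝔭.IsPrime ∧ (m : O) * ∏ i, a i ∈ 𝔭 := by
    intro 𝔭
    rw [Multiset.mem_toFinset, Ideal.mem_normalizedFactors_iff hDspan,
      Ideal.span_singleton_le_iff_mem]
  have hS0 : ∀ 𝔭 ∈ S, 𝔭 ≠ ⊥ := by
    intro 𝔭 h𝔭 h
    have h1 := ((hS 𝔭).1 h𝔭).2
    rw [h] at h1
    exact hc0 h1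
  refine goodModule_of_loc (K := K) x hx0 S (fun 𝔭 h𝔭 =>
    ⟨Ideal.IsPrime.isMaximal ((hS 𝔭).1 h𝔭).1 (hS0 𝔭 h𝔭), hS0 𝔭 h𝔭⟩) ?_ ?_
  · intro 𝔭 h𝔭
    have hpp := ((hS 𝔭).1 h𝔭).1
    have h0 := hS0 𝔭 h𝔭
    obtain ⟨a', b', l, hl, hb', hab, hHyp⟩ := hH 𝔭 hpp h0
    let β : Fin (n + 2) → K := fun i => b' 0 / b' i
    have hβ : ∀ i, β i ≠ 0 := fun i => div_ne_zero (hb' 0) (hb' i)
    let x' : Fin (n + 2) → F := fun i => algebraMap K F (β i) * x i
    have hx'0 : x' 0 = 1 := by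
      change algebraMap K F (b' 0 / b' 0) * x 0 = 1
      rw [div_self (hb' 0), map_one, hx0, one_mul]
    have hβF : ∀ i, algebraMap K F (β i) ≠ 0 := fun i h =>
      hβ i ((algebraMap K F).injective (by rw [h, map_zero]))
    refine locMod_scale (K := K) 𝔭 h0 x x' β hβ (fun i => rfl) ?_
    refine diag_bad (K := K) 𝔭 h0 (hfin 𝔭 hpp h0) m hm hsq a' hHyp x' hx'0 ?_ ?_ ?_ b htb
    · have h1 : ∑ i, algebraMap O F (a' i) * x' i ^ m =
          algebraMap K F (l * b' 0 ^ m) * ∑ i, algebraMap K F (c i) * x i ^ m := by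
        rw [Finset.mul_sum]
        refine Finset.sum_congr rfl fun i _ => ?_
        change algebraMap O F (a' i) * (algebraMap K F (b' 0 / b' i) * x i) ^ m = _
        have h2 : l * c i * b' i ^ m * (b' 0 / b' i) ^ m = l * b' 0 ^ m * c i := by
          have h3 := pow_ne_zero m (hb' i)
          rw [div_pow, mul_assoc, mul_div_cancel₀ _ h3]
          ring
        rw [IsScalarTower.algebraMap_apply O K F, hab i, mul_pow, ← map_pow, ← mul_assoc,
          ← map_mul, ← mul_assoc, ← map_mul, h2]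
      rw [h1, hrel, mul_zero]
    · rw [eq_top_iff, ← hgen, IntermediateField.adjoin_le_iff]
      rintro _ ⟨i, rfl⟩
      have h1 : x i = x' i / algebraMap K F (β i) := by
        rw [eq_div_iff (hβF i), mul_comm]
      rw [h1]
      exact IntermediateField.div_mem _ (IntermediateField.subset_adjoin K _ ⟨i, rfl⟩)
        (IntermediateField.algebraMap_mem _ _)
    · intro e he hem
      have h1 := (hlin e he hem).units_smul (fun i => Units.mk0 (β i ^ e) (pow_ne_zero _ (hβ i)))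
      convert h1 using 1
      funext i
      change (algebraMap K F (β i) * x i) ^ e = (β i ^ e) • x i ^ e
      rw [mul_pow, Algebra.smul_def, map_pow]
  · intro 𝔭 hpp h𝔭 D hD M hM hM2
    have hprod : (m : O) * ∏ i, a i ∉ 𝔭 := fun h => h𝔭 ((hS 𝔭).2 ⟨hpp, h⟩)
    have hm𝔭 : (m : O) ∉ 𝔭 := fun h => hprod (Ideal.mul_mem_right _ _ h)
    have hap : ∀ i, a i ∉ 𝔭 := fun i h => hprod (Ideal.mul_mem_left _ _
      (Ideal.mem_of_dvd 𝔭 (Finset.dvd_prod_of_mem a (Finset.mem_univ i)) h))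
    exact diag_good (K := K) 𝔭 m hm hm𝔭 a hap x hx0 hrelO hgen b htb D hD M hM hM2

end

end Pool.Agent.W418
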