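import Pool.Agent.W418.Diag2
import Pool.Agent.W418.Hyp2

/-! Regular projective flat models of diagonal hypersurfaces. -/

set_option autoImplicit false
set_option linter.unusedSectionVars false
set_option linter.style.haveILetI false

open AlgebraicGeometry CategoryTheory CategoryTheory.Limits MvPolynomial NumberField
open scoped Pointwise

namespace Pool.Agent.W418

open Pool.Agent.H918R2.Quad

/-- From a good module to a regular model. -/
theorem hasRegularModel_of_goodModule {O : Type} [CommRing O] [IsDomain O] [Module.Finite ℤ O]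
    {K F A : Type} [Field K] [CharZero K] [Algebra O K] [IsFractionRing O K] [Field F]
    [Algebra K F] [Algebra O F] [IsScalarTower O K F]
    [CommRing A] [Algebra K A]
    (𝒜 : ℕ → Submodule K A) [GradedAlgebra 𝒜] (ε : A →ₐ[K] F)
    (hε : ∀ d, ∀ a ∈ 𝒜 d, ε a = 0 → a = 0)
    (hgen : ∀ d, (𝒜 d).map ε.toLinearMap = ((𝒜 1).map ε.toLinearMap) ^ d)
    {ι : Type} (x : ι → F) (hε1 : (𝒜 1).map ε.toLinearMap = Submodule.span K (Set.range x))
    (hM : GoodModule O x) (X : Scheme.{0}) (hX : Nonempty (X ≅ Proj 𝒜)) :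
    HasRegularModel X := by
  obtain ⟨D, M, hD, hMfg, hM0, hMG, hGM, hreg⟩ := hM
  have hL : ((𝒜 1).map ε.toLinearMap) ^ D = Submodule.span K (Set.range x ^ D) := by
    rw [hε1, Submodule.span_pow]
  refine hasRegularModel_of_module' (O := O) 𝒜 ε hε hgen D (by omega) M ?_ ?_ hMfg hM0
    hreg X hX
  · intro y hy
    rw [hL]
    exact Submodule.span_subset_span O K _ (hMG hy)
  · intro y hy
    rw [hL] at hy
    obtain ⟨s, hs, hsy⟩ := exists_smul_span (O := O) (Set.range x ^ D) y hy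
    obtain ⟨t, ht, hty⟩ := hGM _ hsy
    exact ⟨t * s, mul_ne_zero ht hs, by rw [mul_smul]; exact hty⟩

theorem diag_final {K : Type} [Field K] [NumberField K] {n : ℕ} (hn : 1 ≤ n) (m : ℕ)
    (hm : 3 ≤ m) (hsq : Squarefree m) (c : Fin (n + 2) → K) (hc : ∀ i, c i ≠ 0)
    (hH : HypK (𝓞 K) m c) {A : Type} [CommRing A] [Algebra K A]
    (π : MvPolynomial (Fin (n + 2)) K →ₐ[K] A) (hπ : Function.Surjective π)
    (hker : RingHom.ker π = Ideal.span {∑ i, C (c i) * X i ^ m})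
    (𝒜 : ℕ → Submodule K A) [GradedAlgebra 𝒜]
    (h𝒜 : ∀ d, 𝒜 d = (homogeneousSubmodule (Fin (n + 2)) K d).map π.toLinearMap)
    {F : Type} [Field F] (e : F ≃+* FractionRing (MvPolynomial (Fin (n + 1)) K ⧸
      Ideal.span {(C (c 0) + ∑ i : Fin (n + 1), C (c i.succ) * X i ^ m :
        MvPolynomial (Fin (n + 1)) K)}))
    (Y : Scheme.{0}) (hY : Nonempty (Y ≅ Proj 𝒜)) : HasRegularModel Y := by
  classical
  obtain ⟨_, x, b, hx0, hrel, hgen, hlin, htb⟩ := Pool.Agent.H945R2.S.FLDM_ok n m (by omega) c hc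
    (Pool.Agent.H945R2.S.IRRM_ok n hn m (by omega) c hc) e
  let _ : Algebra (𝓞 K) F := ((algebraMap K F).comp (algebraMap (𝓞 K) K)).toAlgebra
  have hst : IsScalarTower (𝓞 K) K F := IsScalarTower.of_algebraMap_eq fun _ => rfl
  have hfin : ∀ 𝔭 : Ideal (𝓞 K), 𝔭.IsPrime → 𝔭 ≠ ⊥ → Finite (𝓞 K ⧸ 𝔭) := by
    intro 𝔭 _ h0
    exact Ideal.finiteQuotientOfFreeOfNeBot 𝔭 h0
  have hM : GoodModule (𝓞 K) x :=
    diag_goodModule (K := K) hfin m hm hsq c hc hH x hx0 hrel hgen hlin b htb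
  have hG : Prime (∑ i, C (c i) * X i ^ m : MvPolynomial (Fin (n + 2)) K) :=
    (irreducible_diag n m hn (by omega) c hc).prime
  obtain ⟨ε, hε, hεgen, hε1⟩ := exists_eps x hx0 hgen _ htb
    (∑ i, C (c i) * X i ^ m) hG m (isHomogeneous_diag _ m c) (by
      rw [map_sum, ← hrel]
      refine Finset.sum_congr rfl fun i _ => ?_
      rw [map_mul, map_pow, aeval_X, algHom_C]) π hπ hker 𝒜 h𝒜
  exact hasRegularModel_of_goodModule (O := 𝓞 K) 𝒜 ε hε hεgen x hε1 hM Y hY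

theorem diag_final' {K : Type} [Field K] [NumberField K] {n : ℕ} (hn : 1 ≤ n) (m : ℕ)
    (hm : 3 ≤ m) (hsq : Squarefree m) (c : Fin (n + 2) → K) (hc : ∀ i, c i ≠ 0)
    (hH : HypK (𝓞 K) m c) {A : Type} [CommRing A] [Algebra K A]
    (π : MvPolynomial (Fin (n + 2)) K →ₐ[K] A) (hπ : Function.Surjective π)
    (hker : RingHom.ker π = Ideal.span {∑ i, C (c i) * X i ^ m})
    (𝒜 : ℕ → Submodule K A) [GradedAlgebra 𝒜]
    (h𝒜 : ∀ d, 𝒜 d = (homogeneousSubmodule (Fin (n + 2)) K d).map π.toLinearMap)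
    (Y : Scheme.{0}) (hY : Nonempty (Y ≅ Proj 𝒜)) : HasRegularModel Y := by
  have hg := Pool.Agent.H945R2.S.IRRM_ok n hn m (by omega) c hc
  have hgp : (Ideal.span {(C (c 0) + ∑ i : Fin (n + 1), C (c i.succ) * X i ^ m :
      MvPolynomial (Fin (n + 1)) K)}).IsPrime :=
    (Ideal.span_singleton_prime hg.ne_zero).2 hg.prime
  exact diag_final hn m hm hsq c hc hH π hπ hker 𝒜 h𝒜
    (F := FractionRing (MvPolynomial (Fin (n + 1)) K ⧸
      Ideal.span {(C (c 0) + ∑ i : Fin (n + 1), C (c i.succ) * X i ^ m :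
      MvPolynomial (Fin (n + 1)) K)})) (RingEquiv.refl _) Y hY

end Pool.Agent.W418
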