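import Mathlib

/-! Two separated schemes with the same charts, compatible at the generic point, are isomorphic. -/

set_option autoImplicit false

open AlgebraicGeometry CategoryTheory CategoryTheory.Limits

namespace Pool.Agent.W418

universe u

lemma isDominant_of_comp_openImmersion {W V U : Scheme.{u}} (z : W ⟶ V) (j : V ⟶ U)
    [IsOpenImmersion j] [h : IsDominant (z ≫ j)] : IsDominant z := by
  refine ⟨?_⟩
  rw [DenseRange, dense_iff_inter_open]
  rintro O hO ⟨x, hx⟩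
  have h1 : IsOpen (j '' O) := j.isOpenEmbedding.isOpenMap O hO
  obtain ⟨y, hy, w, rfl⟩ := (dense_iff_inter_open.1 h.denseRange) _ h1 ⟨j x, x, hx, rfl⟩
  obtain ⟨x', hx', he⟩ := hy
  have h2 : j x' = j (z w) := by rw [he]; simp
  have h3 : x' = z w := j.isOpenEmbedding.injective h2
  exact ⟨z w, h3 ▸ hx', w, rfl⟩

/-- Morphisms of charts agreeing generically glue. -/
lemma exists_glued {X Y W : Scheme.{u}} [Y.IsSeparated] {ι : Type u} (U : ι → Scheme.{u})
    (a : ∀ i, U i ⟶ X) (b : ∀ i, U i ⟶ Y) (w : ∀ i, W ⟶ U i) [∀ i, IsOpenImmersion (a i)]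
    (ha : ∀ x : X, ∃ i y, a i y = x) [∀ i, IsReduced (U i)] [∀ i, IsDominant (w i)]
    (hwa : ∀ i j, w i ≫ a i = w j ≫ a j) (hwb : ∀ i j, w i ≫ b i = w j ≫ b j) :
    ∃ g : X ⟶ Y, ∀ i, a i ≫ g = b i := by
  let 𝒰 : Scheme.OpenCover X := Scheme.Cover.mkOfCovers ι U a ha
  have hf : ∀ i j : ι, pullback.fst (a i) (a j) ≫ b i = pullback.snd (a i) (a j) ≫ b j := by
    intro i j
    let l : W ⟶ pullback (a i) (a j) := pullback.lift (w i) (w j) (hwa i j)
    have hl : l ≫ pullback.fst (a i) (a j) = w i := pullback.lift_fst _ _ _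
    have hl2 : l ≫ pullback.snd (a i) (a j) = w j := pullback.lift_snd _ _ _
    have hdom : IsDominant (l ≫ pullback.fst (a i) (a j)) := by rw [hl]; infer_instance
    have : IsDominant l := isDominant_of_comp_openImmersion l (pullback.fst (a i) (a j))
    have hred : IsReduced (pullback (a i) (a j)) :=
      isReduced_of_isOpenImmersion (pullback.fst (a i) (a j))
    refine ext_of_isDominant l ?_
    rw [← Category.assoc, ← Category.assoc, hl, hl2, hwb i j]
  refine ⟨Scheme.Cover.glueMorphisms 𝒰 b hf, fun i => ?_⟩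
  exact Scheme.Cover.ι_glueMorphisms 𝒰 b hf i

theorem nonempty_iso_of_charts {X Y W : Scheme.{u}} [X.IsSeparated] [Y.IsSeparated] {ι : Type u}
    (U : ι → Scheme.{u}) (a : ∀ i, U i ⟶ X) (b : ∀ i, U i ⟶ Y) (w : ∀ i, W ⟶ U i)
    [∀ i, IsOpenImmersion (a i)] [∀ i, IsOpenImmersion (b i)]
    (ha : ∀ x : X, ∃ i y, a i y = x) (hb : ∀ x : Y, ∃ i y, b i y = x) [∀ i, IsReduced (U i)]
    [∀ i, IsDominant (w i)]
    (hwa : ∀ i j, w i ≫ a i = w j ≫ a j) (hwb : ∀ i j, w i ≫ b i = w j ≫ b j) :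
    Nonempty (X ≅ Y) := by
  obtain ⟨g, hg⟩ := exists_glued U a b w ha hwa hwb
  obtain ⟨h, hh⟩ := exists_glued U b a w hb hwb hwa
  have k1 : ∀ i : ι, a i ≫ g ≫ h = a i ≫ 𝟙 X := by
    intro i
    rw [← Category.assoc, hg, hh, Category.comp_id]
  have k2 : ∀ i : ι, b i ≫ h ≫ g = b i ≫ 𝟙 Y := by
    intro i
    rw [← Category.assoc, hh, hg, Category.comp_id]
  exact ⟨⟨g, h, Scheme.Cover.hom_ext (Scheme.Cover.mkOfCovers (P := @IsOpenImmersion) ι U a ha) _ _ k1,
    Scheme.Cover.hom_ext (Scheme.Cover.mkOfCovers (P := @IsOpenImmersion) ι U b hb) _ _ k2⟩⟩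

end Pool.Agent.W418
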