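import Pool.Agent.H968R2.Quad.ExistsModel
import Pool.Agent.W418.Chart
import Pool.Agent.W418.Glue

/-! The generic fibre of the model `Proj ⨁ Mⁿ`: algebra. -/

set_option autoImplicit false
set_option linter.unusedSectionVars false
set_option linter.style.haveILetI false

open AlgebraicGeometry CategoryTheory CategoryTheory.Limits HomogeneousLocalization

namespace Pool.Agent.W418

open Pool.Agent.H968R2.Quad

section alg

variable {K F A : Type} [Field K] [CharZero K] [Field F] [Algebra K F] [CommRing A] [Algebra K A]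
  (𝒜 : ℕ → Submodule K A) [GradedAlgebra 𝒜] (ε : A →ₐ[K] F)
  (hε : ∀ d, ∀ a ∈ 𝒜 d, ε a = 0 → a = 0)
  (hgen : ∀ d, (𝒜 d).map ε.toLinearMap = ((𝒜 1).map ε.toLinearMap) ^ d)
  (D : ℕ) (hD : 0 < D) (M : Submodule ℤ F)
  (hML : ∀ y ∈ M, y ∈ (𝒜 1).map ε.toLinearMap ^ D)
  (hLM : ∀ y ∈ (𝒜 1).map ε.toLinearMap ^ D, ∃ s : ℤ, s ≠ 0 ∧ s • y ∈ M)

lemma evalOne_hom (d : ℕ) (a : mAlg M) (ha : a ∈ mPiece M d) (h : evalOne M a = 0) : a = 0 := by
  rw [eq_mMon M ha, evalOne_mMon] at h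
  rw [eq_mMon M ha]
  apply Subtype.ext
  simp only [mMon]
  rw [h, Polynomial.monomial_zero_right]
  rfl

lemma pow_mem_of_mem {L : Submodule K F} (h : ∀ y ∈ M, y ∈ L) (n : ℕ) :
    ∀ y ∈ M ^ n, y ∈ L ^ n := by
  induction n with
  | zero =>
    intro y hy
    rw [pow_zero] at hy ⊢
    obtain ⟨r, rfl⟩ := Submodule.mem_one.1 hy
    refine Submodule.mem_one.2 ⟨(r : K), ?_⟩
    simp
  | succ n ih =>
    intro y hy
    rw [pow_succ] at hy ⊢
    refine Submodule.mul_induction_on hy (fun a ha b hb => Submodule.mul_mem_mul (ih a ha) (h b hb))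
      (fun a b ha hb => Submodule.add_mem _ ha hb)

lemma exists_smul_mem_pow {L : Submodule K F} (h : ∀ y ∈ L, ∃ s : ℤ, s ≠ 0 ∧ s • y ∈ M) (n : ℕ) :
    ∀ y ∈ L ^ (n + 1), ∃ s : ℤ, s ≠ 0 ∧ s • y ∈ M ^ (n + 1) := by
  induction n with
  | zero => simpa using h
  | succ n ih =>
    intro y hy
    rw [pow_succ] at hy
    refine Submodule.mul_induction_on hy (fun a ha b hb => ?_) (fun a b ha hb => ?_)
    · obtain ⟨s, hs, hsa⟩ := ih a ha
      obtain ⟨t, ht, htb⟩ := h b hb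
      refine ⟨s * t, mul_ne_zero hs ht, ?_⟩
      rw [pow_succ, show (s * t) • (a * b) = (s • a) * (t • b) by
        rw [smul_mul_smul_comm]]
      exact Submodule.mul_mem_mul hsa htb
    · obtain ⟨s, hs, hsa⟩ := ha
      obtain ⟨t, ht, htb⟩ := hb
      refine ⟨s * t, mul_ne_zero hs ht, ?_⟩
      rw [smul_add]
      refine Submodule.add_mem _ ?_ ?_
      · rw [mul_comm, mul_smul]
        exact Submodule.smul_mem _ _ hsa
      · rw [mul_smul]
        exact Submodule.smul_mem _ _ htb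

/-- Maps of subrings of a field, seen from outside. -/
lemma exists_factor {B R : Type} [CommRing B] [CommRing R] (i : R →+* F)
    (hi : Function.Injective i) (j : B →+* F) (h : ∀ b, ∃ r, i r = j b) :
    ∃ φ : B →+* R, i.comp φ = j := by
  choose φ hφ using h
  have h1 : φ 1 = 1 := hi (by rw [hφ, map_one, map_one])
  have h2 : ∀ a b, φ (a * b) = φ a * φ b := fun a b => hi (by rw [hφ, map_mul, map_mul, hφ, hφ])
  have h3 : φ 0 = 0 := hi (by rw [hφ, map_zero, map_zero])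
  have h4 : ∀ a b, φ (a + b) = φ a + φ b := fun a b => hi (by rw [hφ, map_add, map_add, hφ, hφ])
  exact ⟨{ toFun := φ, map_one' := h1, map_mul' := h2, map_zero' := h3, map_add' := h4 },
    RingHom.ext fun b => hφ b⟩

variable (f : F) (hf : f ∈ M) (hf0 : f ≠ 0) (h : A) (hh : h ∈ 𝒜 D) (hhf : ε h = f)

lemma evT (f : F) (hf : f ∈ M) (hf0 : f ≠ 0) : evalOne M (tElt M f hf) ≠ 0 := by
  rwa [evalOne_tElt]

lemma evh (f : F) (hf0 : f ≠ 0) (h : A) (hhf : ε h = f) : (ε : A →+* F) h ≠ 0 := by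
  intro h1
  apply hf0
  rw [← hhf]
  exact h1

include hε in
lemma hε' : ∀ d, ∀ a ∈ 𝒜 d, (ε : A →+* F) a = 0 → a = 0 := hε

include hε hgen hML hh in
lemma exists_phi : ∃ φ : Away (mPiece M) (tElt M f hf) →+* Away 𝒜 h,
    (psi 𝒜 (ε : A →+* F) h (evh ε f hf0 h hhf)).comp φ =
      psi (mPiece M) (evalOne M) (tElt M f hf) (evT M f hf hf0) := by
  refine exists_factor _ (psi_injective 𝒜 (ε : A →+* F) hε hh _) _ ?_
  intro b
  obtain ⟨n, a, ha, hb⟩ := (mem_range_psi (mPiece M) (evalOne M) (tElt_mem M f hf)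
    (evT M f hf hf0) _).1 ⟨b, rfl⟩
  rw [hb]
  have ha' : a ∈ mPiece M n := by simpa using ha
  have h1 : evalOne M a ∈ M ^ n := by
    rw [eq_mMon M ha', evalOne_mMon]
    exact a.2 n
  have h2 := pow_mem_of_mem M hML n _ h1
  rw [← pow_mul, mul_comm D n, ← hgen] at h2
  obtain ⟨a', ha1, ha2⟩ := h2
  rw [mem_range_psi 𝒜 (ε : A →+* F) hh]
  refine ⟨n, a', by simpa using ha1, ?_⟩
  rw [evalOne_tElt]
  have h3 : (ε : A →+* F) h = f := hhf
  have h4 : (ε : A →+* F) a' = evalOne M a := ha2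
  rw [h3, h4]

include hε hgen hLM hh in
lemma phi_isLocalization (φ : Away (mPiece M) (tElt M f hf) →+* Away 𝒜 h)
    (hφ : (psi 𝒜 (ε : A →+* F) h (evh ε f hf0 h hhf)).comp φ =
      psi (mPiece M) (evalOne M) (tElt M f hf) (evT M f hf hf0)) :
    letI := φ.toAlgebra
    IsLocalization ((nonZeroDivisors ℤ).map (Int.castRingHom (Away (mPiece M) (tElt M f hf))))
      (Away 𝒜 h) := by
  letI := φ.toAlgebra
  set i := psi 𝒜 (ε : A →+* F) h (evh ε f hf0 h hhf) with hi
  have hinj : Function.Injective i := psi_injective 𝒜 (ε : A →+* F) hε hh _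
  have hinj2 := psi_injective (mPiece M) (evalOne M) (evalOne_hom M) (tElt_mem M f hf)
    (evT M f hf hf0)
  have hφinj : Function.Injective φ := by
    intro a b hab
    apply hinj2
    rw [← hφ, RingHom.comp_apply, RingHom.comp_apply, hab]
  have hchar : CharZero F := charZero_of_injective_algebraMap (algebraMap K F).injective
  have hu : ∀ s : ℤ, s ≠ 0 → IsUnit ((s : ℤ) : Away 𝒜 h) := by
    intro s hs
    have h1 : algebraMap K A ((s : K)⁻¹) ∈ 𝒜 (0 • D) := by
      rw [zero_smul]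
      exact SetLike.algebraMap_mem_graded 𝒜 _
    refine IsUnit.of_mul_eq_one (Away.mk 𝒜 hh 0 _ h1) ?_
    apply hinj
    rw [map_mul, map_one, psi_mk, map_intCast, pow_zero, div_one]
    have h2 : (ε : A →+* F) (algebraMap K A ((s : K)⁻¹)) = algebraMap K F ((s : K)⁻¹) :=
      ε.commutes _
    rw [h2, map_inv₀, map_intCast]
    exact mul_inv_cancel₀ (Int.cast_ne_zero.2 hs)
  refine ⟨?_, ?_, ?_⟩
  · rintro ⟨_, s, hs, rfl⟩
    have h1 := hu s (nonZeroDivisors.ne_zero hs)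
    change IsUnit (φ (Int.castRingHom _ s))
    rw [eq_intCast, map_intCast]
    exact h1
  · intro r
    obtain ⟨n, a, ha, hr⟩ := (mem_range_psi 𝒜 (ε : A →+* F) hh (evh ε f hf0 h hhf) _).1 ⟨r, rfl⟩
    have h1 : ε (a * h) ∈ ((𝒜 1).map ε.toLinearMap ^ D) ^ (n + 1) := by
      rw [← pow_mul, ← hgen]
      refine ⟨a * h, ?_, rfl⟩
      have h2 := SetLike.mul_mem_graded ha hh
      have h3 : n • D + D = D * (n + 1) := by rw [smul_eq_mul]; ring
      rw [h3] at h2
      exact h2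
    obtain ⟨s, hs, hsM⟩ := exists_smul_mem_pow M hLM n _ h1
    have h2 : mMon M (n + 1) _ hsM ∈ mPiece M ((n + 1) • 1) := by
      rw [smul_eq_mul, mul_one]
      exact mMon_mem M _ _ _
    refine ⟨(Away.mk (mPiece M) (tElt_mem M f hf) (n + 1) _ h2,
      ⟨_, s, mem_nonZeroDivisors_of_ne_zero hs, rfl⟩), ?_⟩
    apply hinj
    change i (r * φ (Int.castRingHom _ s)) = i (φ _)
    have h3 : ∀ z, i (φ z) = psi (mPiece M) (evalOne M) (tElt M f hf) (evT M f hf hf0) z := by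
      intro z
      rw [← hφ]
      rfl
    rw [h3, map_mul, h3, psi_mk, evalOne_mMon, evalOne_tElt]
    simp only [eq_intCast, map_intCast]
    rw [hi] at *
    rw [hr]
    have h4 : (ε : A →+* F) h = f := hhf
    have h5 : ε (a * h) = ε a * f := by rw [map_mul, hhf]
    rw [h4, h5, zsmul_eq_mul]
    have h6 : (ε : A →+* F) a = ε a := rfl
    rw [h6, pow_succ]
    field_simp
  · intro x y hxy
    refine ⟨1, ?_⟩
    have h1 : x = y := hφinj hxy
    rw [h1]

end alg

end Pool.Agent.W418
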