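import Pool.Agent.W418.Gen1

/-! The generic fibre of the model `Proj ⨁ Mⁿ`: schemes. -/

set_option autoImplicit false
set_option linter.unusedSectionVars false
set_option linter.style.haveILetI false

open AlgebraicGeometry CategoryTheory CategoryTheory.Limits HomogeneousLocalization

namespace Pool.Agent.W418

open Pool.Agent.H968R2.Quad

/-- The generic fibre. -/
noncomputable abbrev gfib (Y : Scheme.{0}) : Scheme.{0} :=
  pullback (specZIsTerminal.from Y) (specZIsTerminal.from (Spec (CommRingCat.of ℚ)))

/-- A chart of the generic fibre, from a chart of `Y` and a localization. -/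
lemma exists_gfib_chart (Y : Scheme.{0}) {B R : Type} [CommRing B] [CommRing R] (φ : B →+* R)
    (hφ : letI := φ.toAlgebra
      IsLocalization ((nonZeroDivisors ℤ).map (Int.castRingHom B)) R)
    (c : Spec (CommRingCat.of B) ⟶ Y) [IsOpenImmersion c] :
    ∃ b : Spec (CommRingCat.of R) ⟶ gfib Y, IsOpenImmersion b ∧
      b ≫ pullback.fst _ _ = Spec.map (CommRingCat.ofHom φ) ≫ c ∧
      ∀ z : gfib Y, (∃ u, c u = (pullback.fst (specZIsTerminal.from Y)
        (specZIsTerminal.from (Spec (CommRingCat.of ℚ)))) z) → ∃ v, b v = z := by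
  letI := φ.toAlgebra
  have hloc : IsLocalization ((nonZeroDivisors ℤ).map (Int.castRingHom B)) R := hφ
  have hu : ∀ y : nonZeroDivisors ℤ, IsUnit ((Int.castRingHom R) y) := by
    intro y
    have h1 := IsLocalization.map_units (M := (nonZeroDivisors ℤ).map (Int.castRingHom B)) R
      ⟨Int.castRingHom B y, y, y.2, rfl⟩
    have h2 : algebraMap B R (Int.castRingHom B y) = Int.castRingHom R y := by
      change φ (Int.castRingHom B y) = _
      simp
    rw [← h2]
    exact h1
  let fm : ℚ →+* R := IsLocalization.lift (M := nonZeroDivisors ℤ) (g := Int.castRingHom R) hu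
  have H : fm.comp (algebraMap ℤ ℚ) = (algebraMap B R).comp (Int.castRingHom B) :=
    RingHom.ext_int _ _
  have hpo := CommRingCat.isPushout_of_isLocalization (Int.castRingHom B) fm H (nonZeroDivisors ℤ)
  have hpb := isPullback_SpecMap_of_isPushout _ _ _ _ hpo
  let b : Spec (CommRingCat.of R) ⟶ gfib Y :=
    pullback.lift (Spec.map (CommRingCat.ofHom φ) ≫ c) (Spec.map (CommRingCat.ofHom fm))
      (specZIsTerminal.hom_ext _ _)
  have hb1 : b ≫ pullback.fst _ _ = Spec.map (CommRingCat.ofHom φ) ≫ c := pullback.lift_fst _ _ _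
  have hb2 : b ≫ pullback.snd _ _ = Spec.map (CommRingCat.ofHom fm) := pullback.lift_snd _ _ _
  have hbig : IsPullback (b ≫ pullback.snd _ _) (Spec.map (CommRingCat.ofHom φ))
      (specZIsTerminal.from (Spec (CommRingCat.of ℚ))) (c ≫ specZIsTerminal.from Y) := by
    rw [hb2]
    have h1 : specZIsTerminal.from (Spec (CommRingCat.of ℚ)) =
      Spec.map (CommRingCat.ofHom (algebraMap ℤ ℚ)) := specZIsTerminal.hom_ext _ _
    have h2 : c ≫ specZIsTerminal.from Y = Spec.map (CommRingCat.ofHom (Int.castRingHom B)) :=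
      specZIsTerminal.hom_ext _ _
    rw [h1, h2]
    exact hpb.flip
  have hsm : IsPullback (pullback.snd (specZIsTerminal.from Y)
      (specZIsTerminal.from (Spec (CommRingCat.of ℚ)))) (pullback.fst _ _)
      (specZIsTerminal.from (Spec (CommRingCat.of ℚ))) (specZIsTerminal.from Y) :=
    (IsPullback.of_hasPullback _ _).flip
  have hleft : IsPullback b (Spec.map (CommRingCat.ofHom φ)) (pullback.fst _ _) c :=
    IsPullback.of_right hbig hb1 hsm
  refine ⟨b, MorphismProperty.of_isPullback (P := @IsOpenImmersion) hleft.flip inferInstance,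
    hb1, ?_⟩
  rintro z ⟨u, hu⟩
  obtain ⟨v, hv1, hv2⟩ := Scheme.Pullback.exists_preimage_pullback (f := pullback.fst
    (specZIsTerminal.from Y) (specZIsTerminal.from (Spec (CommRingCat.of ℚ)))) (g := c) z u hu.symm
  refine ⟨hleft.isoPullback.inv v, ?_⟩
  rw [← Scheme.Hom.comp_apply, IsPullback.isoPullback_inv_fst]
  exact hv1

end Pool.Agent.W418
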