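import Pool.Agent.W418.Gen2

/-! The generic fibre of the model `Proj ⨁ Mⁿ` is `Proj 𝒜`. -/

set_option autoImplicit false
set_option linter.unusedSectionVars false
set_option linter.style.haveILetI false

open AlgebraicGeometry CategoryTheory CategoryTheory.Limits HomogeneousLocalization

namespace Pool.Agent.W418

open Pool.Agent.H968R2.Quad

section

variable {K F A : Type} [Field K] [CharZero K] [Field F] [Algebra K F] [CommRing A] [Algebra K A]
  (𝒜 : ℕ → Submodule K A) [GradedAlgebra 𝒜] (ε : A →ₐ[K] F)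
  (hε : ∀ d, ∀ a ∈ 𝒜 d, ε a = 0 → a = 0)
  (hgen : ∀ d, (𝒜 d).map ε.toLinearMap = ((𝒜 1).map ε.toLinearMap) ^ d)

include hε hgen in
/-- A relevant homogeneous prime does not contain the elements of degree one. -/
lemma exists_deg_one (y : ProjectiveSpectrum 𝒜) :
    ∃ a ∈ 𝒜 1, a ∉ y.asHomogeneousIdeal.toIdeal := by
  classical
  by_contra hcon
  push Not at hcon
  have key : ∀ (n : ℕ), ∀ z ∈ ((𝒜 1).map ε.toLinearMap) ^ (n + 1),
      ∃ a ∈ 𝒜 (n + 1), a ∈ y.asHomogeneousIdeal.toIdeal ∧ ε a = z := by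
    intro n
    induction n with
    | zero =>
      intro z hz
      rw [zero_add, pow_one] at hz
      obtain ⟨a, ha, rfl⟩ := hz
      exact ⟨a, by simpa using ha, hcon a ha, rfl⟩
    | succ n ih =>
      intro z hz
      rw [pow_succ] at hz
      refine Submodule.mul_induction_on hz (fun u hu v hv => ?_) (fun u v hu hv => ?_)
      · obtain ⟨a, ha, hay, rfl⟩ := ih u hu
        obtain ⟨b, hb, rfl⟩ := hv
        refine ⟨a * b, SetLike.mul_mem_graded ha hb, Ideal.mul_mem_right _ _ hay, ?_⟩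
        rw [map_mul]
        rfl
      · obtain ⟨a, ha, hay, rfl⟩ := hu
        obtain ⟨b, hb, hby, rfl⟩ := hv
        exact ⟨a + b, Submodule.add_mem _ ha hb, Ideal.add_mem _ hay hby, map_add _ _ _⟩
  apply y.not_irrelevant_le
  intro z hz
  have hz0 := (HomogeneousIdeal.mem_irrelevant_iff _ _).1 hz
  rw [GradedRing.proj_apply] at hz0
  change z ∈ y.asHomogeneousIdeal.toIdeal
  rw [← DirectSum.sum_support_decompose 𝒜 z]
  apply Ideal.sum_mem
  intro i _
  cases i with
  | zero =>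
    rw [hz0]
    exact Ideal.zero_mem _
  | succ n =>
    have h1 : ε (DirectSum.decompose 𝒜 z (n + 1)) ∈ ((𝒜 1).map ε.toLinearMap) ^ (n + 1) := by
      rw [← hgen]
      exact ⟨_, (DirectSum.decompose 𝒜 z (n + 1)).2, rfl⟩
    obtain ⟨a, ha, hay, he⟩ := key n _ h1
    have h2 : a - (DirectSum.decompose 𝒜 z (n + 1) : A) = 0 := by
      apply hε (n + 1)
      · exact Submodule.sub_mem _ ha (DirectSum.decompose 𝒜 z (n + 1)).2
      · rw [map_sub, he, sub_self]
    rw [← sub_eq_zero.1 h2]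
    exact hay

variable (D : ℕ) (hD : 0 < D) (M : Submodule ℤ F)
  (hML : ∀ y ∈ M, y ∈ (𝒜 1).map ε.toLinearMap ^ D)
  (hLM : ∀ y ∈ (𝒜 1).map ε.toLinearMap ^ D, ∃ s : ℤ, s ≠ 0 ∧ s • y ∈ M)

/-- The index type of the charts. -/
abbrev Ind (M : Submodule ℤ F) : Type := {f : F // f ∈ M ∧ f ≠ 0}

include hε hgen hD hML hLM in
theorem gfib_model : Nonempty (gfib (model M) ≅ Proj 𝒜) := by
  -- lifts
  have hlift : ∀ f : Ind M, ∃ h ∈ 𝒜 D, ε h = f.1 := by
    intro f
    have h1 := hML f.1 f.2.1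
    rw [← hgen] at h1
    obtain ⟨h, hh, he⟩ := h1
    exact ⟨h, hh, he⟩
  choose h hh hhf using hlift
  have hφ : ∀ f : Ind M, ∃ φ : Away (mPiece M) (tElt M f.1 f.2.1) →+* Away 𝒜 (h f),
      (psi 𝒜 (ε : A →+* F) (h f) (evh ε f.1 f.2.2 (h f) (hhf f))).comp φ =
        psi (mPiece M) (evalOne M) (tElt M f.1 f.2.1) (evT M f.1 f.2.1 f.2.2) :=
    fun f => exists_phi 𝒜 ε hε hgen D M hML f.1 f.2.1 f.2.2 (h f) (hh f) (hhf f)
  choose φ hφ using hφ
  have hloc := fun f : Ind M => phi_isLocalization 𝒜 ε hε hgen D M hLM f.1 f.2.1 f.2.2 (h f)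
    (hh f) (hhf f) (φ f) (hφ f)
  have hch := fun f : Ind M => exists_gfib_chart (model M) (φ f) (hloc f)
    (modelChart M f.1 f.2.1)
  choose b hbo hb1 hb2 using hch
  have hsep1 : (gfib (model M)).IsSeparated := by
    have h1 : (model M).IsSeparated := inferInstanceAs ((Proj (mPiece M)).IsSeparated)
    have h2 : IsSeparated (specZIsTerminal.from (model M)) := inferInstance
    have h5 : IsSeparated (pullback.snd (specZIsTerminal.from (model M))
      (specZIsTerminal.from (Spec (CommRingCat.of ℚ)))) := inferInstance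
    constructor
    have h4 : terminal.from (gfib (model M)) = pullback.snd (specZIsTerminal.from (model M))
      (specZIsTerminal.from (Spec (CommRingCat.of ℚ))) ≫ terminal.from _ :=
      terminal.hom_ext _ _
    rw [h4]
    infer_instance
  have hsep2 : (Proj 𝒜).IsSeparated := inferInstance
  have hdomain : ∀ f : Ind M, IsDomain (Away 𝒜 (h f)) := fun f =>
    away_isDomain 𝒜 (ε : A →+* F) hε (hh f) (evh ε f.1 f.2.2 (h f) (hhf f))
  have hdomi : ∀ f : Ind M, IsDominant (gpt 𝒜 (ε : A →+* F) (h f)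
      (evh ε f.1 f.2.2 (h f) (hhf f))) := fun f =>
    gpt_isDominant 𝒜 (ε : A →+* F) hε (hh f) (evh ε f.1 f.2.2 (h f) (hhf f))
  refine nonempty_iso_of_charts (W := Spec (CommRingCat.of F))
    (fun f : Ind M => Spec (CommRingCat.of (Away 𝒜 (h f)))) b
    (fun f => Proj.awayι 𝒜 (h f) (hh f) hD)
    (fun f => gpt 𝒜 (ε : A →+* F) (h f) (evh ε f.1 f.2.2 (h f) (hhf f))) ?_ ?_ ?_ ?_
  · intro z
    obtain ⟨a, ha, ha0, u, hu⟩ := exists_chart M ((pullback.fst (specZIsTerminal.from (model M))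
        (specZIsTerminal.from (Spec (CommRingCat.of ℚ)))) z)
    obtain ⟨v, hv⟩ := hb2 ⟨a, ha, ha0⟩ z ⟨u, hu⟩
    exact ⟨⟨a, ha, ha0⟩, v, hv⟩
  · intro y
    obtain ⟨a, ha, hay⟩ := exists_deg_one 𝒜 ε hε hgen y
    have haD : a ^ D ∈ 𝒜 D := by
      have := SetLike.pow_mem_graded D ha
      simpa using this
    have h1 : ε (a ^ D) ∈ (𝒜 1).map ε.toLinearMap ^ D := by
      rw [← hgen]
      exact ⟨_, haD, rfl⟩
    obtain ⟨s, hs, hsM⟩ := hLM _ h1
    have ha0 : ε (a ^ D) ≠ 0 := by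
      intro h0
      have h2 := hε D _ haD h0
      have h3 : a ^ D ∈ y.asHomogeneousIdeal.toIdeal := by rw [h2]; exact Ideal.zero_mem _
      exact hay (y.isPrime.mem_of_pow_mem _ h3)
    have hchar : CharZero F := charZero_of_injective_algebraMap (algebraMap K F).injective
    have hs0 : s • ε (a ^ D) ≠ 0 := by
      rw [zsmul_eq_mul]
      exact mul_ne_zero (Int.cast_ne_zero.2 hs) ha0
    have h4 : h ⟨_, hsM, hs0⟩ = s • a ^ D := by
      rw [← sub_eq_zero]
      apply hε D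
      · exact Submodule.sub_mem _ (hh _) (zsmul_mem haD s)
      · rw [map_sub, hhf, map_zsmul, sub_self]
    have h5 : y ∈ Proj.basicOpen 𝒜 (h ⟨_, hsM, hs0⟩) := by
      rw [h4]
      change s • a ^ D ∉ y.asHomogeneousIdeal.toIdeal
      intro h6
      have h7 : algebraMap K A ((s : K)⁻¹) * (s • a ^ D) ∈ y.asHomogeneousIdeal.toIdeal :=
        Ideal.mul_mem_left _ _ h6
      have h8 : algebraMap K A ((s : K)⁻¹) * (s • a ^ D) = a ^ D := by
        rw [zsmul_eq_mul, ← mul_assoc]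
        have h9 : (s : A) = algebraMap K A (s : K) := by simp
        rw [h9, ← map_mul, inv_mul_cancel₀ (Int.cast_ne_zero.2 hs), map_one, one_mul]
      rw [h8] at h7
      exact hay (y.isPrime.mem_of_pow_mem _ h7)
    rw [← Proj.opensRange_awayι 𝒜 _ (hh ⟨_, hsM, hs0⟩) hD] at h5
    obtain ⟨u, hu⟩ := h5
    exact ⟨_, u, hu⟩
  · intro f g
    apply pullback.hom_ext
    · rw [Category.assoc, Category.assoc, hb1, hb1]
      have h1 : ∀ f : Ind M, gpt 𝒜 (ε : A →+* F) (h f) (evh ε f.1 f.2.2 (h f) (hhf f)) ≫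
          Spec.map (CommRingCat.ofHom (φ f)) ≫ modelChart M f.1 f.2.1 =
          gpt (mPiece M) (evalOne M) (tElt M f.1 f.2.1) (evT M f.1 f.2.1 f.2.2) ≫
            Proj.awayι (mPiece M) (tElt M f.1 f.2.1) (tElt_mem M f.1 f.2.1) one_pos := by
        intro f
        rw [← Category.assoc]
        have h2 : gpt 𝒜 (ε : A →+* F) (h f) (evh ε f.1 f.2.2 (h f) (hhf f)) ≫
          Spec.map (CommRingCat.ofHom (φ f)) =
          gpt (mPiece M) (evalOne M) (tElt M f.1 f.2.1) (evT M f.1 f.2.1 f.2.2) := by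
          unfold gpt
          rw [← Spec.map_comp, ← CommRingCat.ofHom_comp, hφ f]
        rw [h2]
        rfl
      rw [h1, h1]
      exact gpt_comp (mPiece M) (evalOne M) (tElt_mem M f.1 f.2.1) one_pos
        (tElt_mem M g.1 g.2.1) one_pos _ _
    · have h1 : ∀ u v : Spec (CommRingCat.of F) ⟶ Spec (CommRingCat.of ℚ), u = v := by
        intro u v
        obtain ⟨u, rfl⟩ := Spec.map_surjective u
        obtain ⟨v, rfl⟩ := Spec.map_surjective v
        congr 1
        ext x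
        have h2 : u.hom = v.hom := Subsingleton.elim _ _
        rw [h2]
      exact h1 _ _
  · intro f g
    exact gpt_comp 𝒜 (ε : A →+* F) (hh f) hD (hh g) hD _ _

end

end Pool.Agent.W418
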