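import Pool.Agent.W418.Gen3

/-! The model `Proj ⨁ Mⁿ` is a regular projective flat model over `ℤ`. -/

set_option autoImplicit false
set_option linter.unusedSectionVars false
set_option linter.style.haveILetI false

open AlgebraicGeometry CategoryTheory CategoryTheory.Limits HomogeneousLocalization

namespace Pool.Agent.W418

open Pool.Agent.H968R2.Quad

section

variable {F : Type} [Field F] [CharZero F] (M : Submodule ℤ F)

lemma int_inj : Function.Injective (algebraMap ℤ F) := by
  intro a b hab
  have h1 : ((a : ℤ) : F) = (b : ℤ) := hab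
  exact_mod_cast h1

lemma gen_deg_one (hM : M.FG) :
    ∃ s : Finset (mAlg M), (∀ a ∈ s, a ∈ mPiece M 1) ∧
      Algebra.adjoin ℤ (s : Set (mAlg M)) = ⊤ := by
  classical
  obtain ⟨s, hs⟩ := hM
  have hsM : ∀ x ∈ s, x ∈ M := fun x hx => by rw [← hs]; exact Submodule.subset_span hx
  let t : Finset (mAlg M) := s.attach.image fun x => tElt M x.1 (hsM x.1 x.2)
  refine ⟨t, ?_, ?_⟩
  · intro a ha
    simp only [t, Finset.mem_image] at ha
    obtain ⟨x, _, rfl⟩ := ha
    exact tElt_mem M _ _
  rw [eq_top_iff]
  rintro z -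
  have h1 : ∀ (a : F) (ha : a ∈ M), tElt M a ha ∈ Algebra.adjoin ℤ (t : Set (mAlg M)) := by
    intro a ha
    have key : ∀ a ∈ Submodule.span ℤ (s : Set F), ∃ ha : a ∈ M,
        tElt M a ha ∈ Algebra.adjoin ℤ (t : Set (mAlg M)) := by
      intro a ha
      induction ha using Submodule.span_induction with
      | mem x hx =>
        refine ⟨hsM x hx, Algebra.subset_adjoin ?_⟩
        simp only [t, Finset.coe_image, Set.mem_image]
        exact ⟨⟨x, hx⟩, by simp, rfl⟩
      | zero =>
        refine ⟨Submodule.zero_mem _, ?_⟩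
        have : tElt M 0 (Submodule.zero_mem _) = 0 := by
          apply Subtype.ext
          simp [tElt, mMon]
        rw [this]
        exact zero_mem _
      | add x y _ _ ihx ihy =>
        obtain ⟨hx, hx'⟩ := ihx
        obtain ⟨hy, hy'⟩ := ihy
        refine ⟨Submodule.add_mem _ hx hy, ?_⟩
        have : tElt M (x + y) (Submodule.add_mem _ hx hy) = tElt M x hx + tElt M y hy := by
          apply Subtype.ext
          simp only [tElt, mMon]
          change _ = Polynomial.monomial 1 x + Polynomial.monomial 1 y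
          rw [map_add]
        rw [this]
        exact add_mem hx' hy'
      | smul r x _ ihx =>
        obtain ⟨hx, hx'⟩ := ihx
        refine ⟨Submodule.smul_mem _ _ hx, ?_⟩
        have : tElt M (r • x) (Submodule.smul_mem _ _ hx) = r • tElt M x hx := by
          apply Subtype.ext
          simp only [tElt, mMon]
          change _ = r • Polynomial.monomial 1 x
          rw [Polynomial.smul_monomial]
        rw [this]
        exact Subalgebra.smul_mem _ hx' _
    obtain ⟨_, h⟩ := key a (by rw [hs]; exact ha)
    exact h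
  rw [← DirectSum.sum_support_decompose (mPiece M) z]
  apply Subalgebra.sum_mem
  intro i _
  rw [eq_mMon M (DirectSum.decompose (mPiece M) z i).2]
  exact mMon_mem_of_tElt M _ (fun a => Subalgebra.algebraMap_mem _ a) h1 _ _ _

/-- Projectivity in the sense of the frozen statement. -/
lemma model_projective (hM : M.FG) :
    ∃ (A : Type) (_ : CommRing A) (𝒜 : ℕ → Submodule ℤ A) (_ : GradedAlgebra 𝒜),
      (∀ a ∈ 𝒜 0, ∃ n : ℤ, (n : A) = a) ∧
      (∃ s : Finset A, (∀ a ∈ s, a ∈ 𝒜 1) ∧ Algebra.adjoin ℤ (s : Set A) = ⊤) ∧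
      Nonempty (model M ≅ Proj 𝒜) := by
  refine ⟨mAlg M, inferInstance, mPiece M, inferInstance, ?_, gen_deg_one M hM,
    ⟨Iso.refl _⟩⟩
  intro a ha
  obtain ⟨n, hn⟩ := (toZero_bijective M int_inj).2 ⟨a, ha⟩
  refine ⟨n, ?_⟩
  have h1 : ((toZero M n : mPiece M 0) : mAlg M) = a :=
    congrArg (fun z : mPiece M 0 => (z : mAlg M)) hn
  rw [← h1]
  apply Subtype.ext
  simp only [toZero, mMon, RingHom.coe_mk, MonoidHom.coe_mk, OneHom.coe_mk]
  rw [Polynomial.monomial_zero_left, eq_intCast, map_intCast]
  simp

lemma model_flat : Flat (specZIsTerminal.from (model M)) := by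
  have h0 : ∀ (i : Ind M),
      Flat (modelChart M i.1 i.2.1 ≫ specZIsTerminal.from (model M)) := by
    rintro ⟨a, ha, ha0⟩
    have h1 : modelChart M a ha ≫ specZIsTerminal.from (model M) =
        Spec.map (CommRingCat.ofHom (algebraMap ℤ (Away (mPiece M) (tElt M a ha)))) :=
      specZIsTerminal.hom_ext _ _
    rw [h1, Flat.SpecMap_iff, CommRingCat.hom_ofHom]
    have hinj := psi_injective (mPiece M) (evalOne M) (evalOne_hom M) (tElt_mem M a ha)
      (evT M a ha ha0)
    have hd : IsDomain (Away (mPiece M) (tElt M a ha)) := hinj.isDomain _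
    have hc : CharZero (Away (mPiece M) (tElt M a ha)) := by
      refine ⟨fun i j hij => ?_⟩
      have h2 := congrArg (Pool.Agent.W418.psi (mPiece M) (evalOne M) (tElt M a ha)
        (evT M a ha ha0)) hij
      rw [map_natCast, map_natCast] at h2
      exact_mod_cast h2
    have h3 : Module.Flat ℤ (Away (mPiece M) (tElt M a ha)) := by
      refine (IsDedekindDomain.flat_iff_torsion_eq_bot (R := ℤ)
        (M := Away (mPiece M) (tElt M a ha))).2 ?_
      rw [← Submodule.isTorsionFree_iff_torsion_eq_bot]
      refine (Module.isTorsionFree_iff_algebraMap_injective (R := ℤ)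
        (A := Away (mPiece M) (tElt M a ha))).2 ?_
      intro i j hij
      rw [eq_intCast, eq_intCast] at hij
      exact_mod_cast hij
    exact RingHom.flat_algebraMap_iff.2 h3
  let 𝒰 : Scheme.OpenCover (model M) := Scheme.Cover.mkOfCovers (Ind M) _
    (fun i : Ind M => modelChart M i.1 i.2.1) (fun y => by
      obtain ⟨a, ha, ha0, z, hz⟩ := exists_chart M y
      exact ⟨⟨a, ha, ha0⟩, z, hz⟩) inferInstance
  have hz : IsZariskiLocalAtSource @Flat := HasRingHomProperty.instIsZariskiLocalAtSource
  rw [IsZariskiLocalAtSource.iff_of_openCover (P := @Flat) 𝒰]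
  exact h0

lemma model_noeth (hM : M.FG) : IsLocallyNoetherian (model M) := by
  have h1 : IsProper (modelMap M) := modelMap_isProper M int_inj hM
  exact LocallyOfFiniteType.isLocallyNoetherian (modelMap M)

lemma regular_affine (Y : Scheme.{0}) (h : ∀ y : Y, IsRegularLocalRing (Y.presheaf.stalk y))
    (U : Y.affineOpens) (p : PrimeSpectrum (Y.presheaf.obj (Opposite.op U.1))) :
    ringKrullDim (Localization.AtPrime p.asIdeal) =
      (((Module.finrank (IsLocalRing.ResidueField (Localization.AtPrime p.asIdeal))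
        (IsLocalRing.CotangentSpace (Localization.AtPrime p.asIdeal)) : ℕ) : ℕ∞) :
          WithBot ℕ∞) := by
  have hU : IsAffineOpen U.1 := U.2
  have h1 := hU.isLocalization_stalk' p (by
    have h2 : hU.fromSpec p ∈ Set.range hU.fromSpec := ⟨p, rfl⟩
    rwa [IsAffineOpen.range_fromSpec] at h2)
  have h3 := h (hU.fromSpec p)
  have h4 : IsRegularLocalRing (Localization.AtPrime p.asIdeal) := by
    let k : Algebra Γ(Y, U.1) (Y.presheaf.stalk (hU.fromSpec p)) :=
      (TopCat.Presheaf.algebra_section_stalk Y.presheaf _)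
    exact IsRegularLocalRing.of_ringEquiv
      (IsLocalization.algEquiv p.asIdeal.primeCompl
        (Y.presheaf.stalk (hU.fromSpec p)) (Localization.AtPrime p.asIdeal)).toRingEquiv
  exact ((IsRegularLocalRing.iff_finrank_cotangentSpace _).1 h4).symm

end

end Pool.Agent.W418
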