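import Pool.Agent.W418.Gen4

/-! Regular projective flat models from modules. -/

set_option autoImplicit false
set_option linter.unusedSectionVars false
set_option linter.style.haveILetI false

open AlgebraicGeometry CategoryTheory CategoryTheory.Limits HomogeneousLocalization

namespace Pool.Agent.W418

open Pool.Agent.H968R2.Quad

/-- `X` is the generic fibre of an integral, regular, locally Noetherian scheme which is
projective and flat over `ℤ`. -/
def HasRegularModel (X : Scheme.{0}) : Prop :=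
  ∃ (Y : Scheme.{0}),
    IsIntegral Y ∧
    IsLocallyNoetherian Y ∧
    (∀ (U : Y.affineOpens) (p : PrimeSpectrum (Y.presheaf.obj (Opposite.op U.1))),
      ringKrullDim (Localization.AtPrime p.asIdeal) =
        (((Module.finrank (IsLocalRing.ResidueField (Localization.AtPrime p.asIdeal))
          (IsLocalRing.CotangentSpace (Localization.AtPrime p.asIdeal)) : ℕ) : ℕ∞) :
            WithBot ℕ∞)) ∧
    (∃ (A : Type) (_ : CommRing A) (𝒜 : ℕ → Submodule ℤ A) (_ : GradedAlgebra 𝒜),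
      (∀ a ∈ 𝒜 0, ∃ n : ℤ, (n : A) = a) ∧
      (∃ s : Finset A, (∀ a ∈ s, a ∈ 𝒜 1) ∧ Algebra.adjoin ℤ (s : Set A) = ⊤) ∧
      Nonempty (Y ≅ Proj 𝒜)) ∧
    Flat (specZIsTerminal.from Y) ∧
    Nonempty (pullback (specZIsTerminal.from Y)
        (specZIsTerminal.from (Spec (CommRingCat.of ℚ))) ≅ X)

theorem hasRegularModel_of_module
    {K F A : Type} [Field K] [CharZero K] [Field F] [Algebra K F] [CommRing A] [Algebra K A]
    (𝒜 : ℕ → Submodule K A) [GradedAlgebra 𝒜] (ε : A →ₐ[K] F)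
    (hε : ∀ d, ∀ a ∈ 𝒜 d, ε a = 0 → a = 0)
    (hgen : ∀ d, (𝒜 d).map ε.toLinearMap = ((𝒜 1).map ε.toLinearMap) ^ d)
    (D : ℕ) (hD : 0 < D) (M : Submodule ℤ F)
    (hML : ∀ y ∈ M, y ∈ (𝒜 1).map ε.toLinearMap ^ D)
    (hLM : ∀ y ∈ (𝒜 1).map ε.toLinearMap ^ D, ∃ s : ℤ, s ≠ 0 ∧ s • y ∈ M)
    (hM : M.FG) (h0 : ∃ f ∈ M, f ≠ 0)
    (hreg : ∀ f ∈ M, f ≠ 0 →
      ∀ (q : Ideal (Algebra.adjoin ℤ {y : F | ∃ m ∈ M, y = m / f})) [q.IsPrime],
      IsRegularLocalRing (Localization.AtPrime q))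
    (X : Scheme.{0}) (hX : Nonempty (X ≅ Proj 𝒜)) : HasRegularModel X := by
  have hchar : CharZero F := charZero_of_injective_algebraMap (algebraMap K F).injective
  obtain ⟨f, hf, hf0⟩ := h0
  obtain ⟨i1⟩ := hX
  obtain ⟨i2⟩ := gfib_model 𝒜 ε hε hgen D hD M hML hLM
  exact ⟨model M, model_integral M f hf hf0, model_noeth M hM,
    regular_affine (model M) (stalk_regular M hreg), model_projective M hM, model_flat M,
    ⟨i2 ≪≫ i1.symm⟩⟩

end Pool.Agent.W418
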