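import Mathlib
import Pool.Agent.H918R2.Quad.Trdeg

/-! Homogeneous coordinates in the function field of a hypersurface. -/

set_option autoImplicit false
set_option linter.unusedSectionVars false
set_option linter.style.haveILetI false

open MvPolynomial

namespace Pool.Agent.W418

/-- A polynomial vanishing at a point with all but one coordinate independent is divisible by the
equation of the point. -/
theorem ker_dvd {K Ω : Type} [Field K] [CommRing Ω] [Algebra K Ω] {ρ : Type}
    (G : MvPolynomial ρ K) (hG : Prime G) (w : ρ → Ω) (hGw : aeval w G = 0) (j₀ : ρ)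
    (hind : AlgebraicIndependent K (fun j : {j : ρ // j ≠ j₀} => w j))
    (P : MvPolynomial ρ K) (hP : aeval w P = 0) : G ∣ P := by
  classical
  let I : Ideal (MvPolynomial ρ K) := Ideal.span {G}
  have hI : I.IsPrime := (Ideal.span_singleton_prime hG.ne_zero).2 hG
  let T := MvPolynomial ρ K ⧸ I
  let φ : T →ₐ[K] Ω := Ideal.Quotient.liftₐ I (aeval w) (by
    intro a ha
    obtain ⟨c, rfl⟩ := Ideal.mem_span_singleton.1 ha
    rw [map_mul, hGw, zero_mul])
  let yT : ρ → T := fun j => Ideal.Quotient.mk I (X j)
  have hyT : ∀ p : MvPolynomial ρ K, aeval yT p = Ideal.Quotient.mk I p := by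
    intro p
    have h1 : (aeval yT : MvPolynomial ρ K →ₐ[K] T) = Ideal.Quotient.mkₐ K I := by
      ext j
      simp only [yT, aeval_X]
      rfl
    rw [h1]
    rfl
  have hφ : ∀ p, φ (Ideal.Quotient.mk I p) = aeval w p := fun p => rfl
  let x : {j : ρ // j ≠ j₀} → T := fun j => yT j
  have hφx : (φ ∘ x) = (fun j : {j : ρ // j ≠ j₀} => w j) := by
    funext j
    change aeval w (X (j : ρ)) = w j
    rw [aeval_X]
  have hx : AlgebraicIndependent K x := by
    refine AlgebraicIndependent.of_comp φ ?_
    rw [hφx]
    exact hind
  have hnot : ¬ AlgebraicIndependent K yT := by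
    intro h
    have h1 : aeval yT G = 0 := by
      rw [hyT]
      exact Ideal.Quotient.eq_zero_iff_mem.2 (Ideal.mem_span_singleton_self G)
    exact hG.ne_zero (h.eq_zero_of_aeval_eq_zero _ h1)
  have halg : IsAlgebraic (Algebra.adjoin K (Set.range x)) (yT j₀) := by
    by_contra h
    apply hnot
    have h2 := (hx.option_iff_transcendental (yT j₀)).mpr h
    rw [← algebraicIndependent_equiv (Equiv.optionSubtypeNe j₀)]
    convert h2 using 1
    funext o
    cases o with
    | none => simp
    | some j => simp [x]
  have hmem : ∀ p : MvPolynomial ρ K,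
      IsAlgebraic (Algebra.adjoin K (Set.range x)) (aeval yT p) := by
    intro p
    induction p using MvPolynomial.induction_on with
    | C a =>
      rw [MvPolynomial.algHom_C]
      have : algebraMap K T a = algebraMap (Algebra.adjoin K (Set.range x)) T
          (algebraMap K _ a) := rfl
      rw [this]
      exact isAlgebraic_algebraMap _
    | add p q hp hq =>
      rw [map_add]
      exact hp.add hq
    | mul_X p n hp =>
      rw [map_mul, aeval_X]
      refine hp.mul ?_
      by_cases hn : n = j₀
      · subst hn
        exact halg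
      · have hm : yT n ∈ Algebra.adjoin K (Set.range x) :=
          Algebra.subset_adjoin ⟨⟨n, hn⟩, rfl⟩
        exact isAlgebraic_algebraMap (⟨yT n, hm⟩ : Algebra.adjoin K (Set.range x))
  have hinjR : ∀ r : Algebra.adjoin K (Set.range x), φ (r : T) = 0 → r = 0 := by
    intro r hr
    have hr2 : ∀ z ∈ Algebra.adjoin K (Set.range x),
        ∃ p : MvPolynomial {j : ρ // j ≠ j₀} K, aeval x p = z := by
      intro z hz
      rw [Algebra.adjoin_range_eq_range_aeval] at hz
      exact hz
    obtain ⟨p, hp'⟩ := hr2 r r.2
    rw [← hp'] at hr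
    have h3 : aeval (fun j : {j : ρ // j ≠ j₀} => w j) p = 0 := by
      rw [← hφx]
      have h6 : φ (aeval x p) = aeval (φ ∘ x) p := by
        rw [show (φ ∘ x) = fun j => φ (x j) from rfl, ← MvPolynomial.comp_aeval_apply]
      rw [← h6, hr]
    have h4 := hind.eq_zero_of_aeval_eq_zero _ h3
    apply Subtype.ext
    rw [← hp', h4, map_zero]
    rfl
  have hzero : aeval yT P = 0 := by
    by_contra hne
    obtain ⟨r, hr0, hdvd⟩ := (hmem P).exists_nonzero_dvd (mem_nonZeroDivisors_of_ne_zero hne)
    apply hr0
    apply hinjR
    obtain ⟨c, hc⟩ := hdvd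
    have h1 : (r : T) = aeval yT P * c := hc
    rw [h1, map_mul, hyT, hφ, hP, zero_mul]
  rw [hyT, Ideal.Quotient.eq_zero_iff_mem] at hzero
  exact Ideal.mem_span_singleton.1 hzero

/-- The cone over a point of the function field. -/
theorem exists_cone {K F : Type} [Field K] [Field F] [Algebra K F] {m : ℕ}
    (x : Fin (m + 2) → F) (hx0 : x 0 = 1)
    (hgen : IntermediateField.adjoin K (Set.range x) = ⊤)
    (b : Fin m → F) (htb : IsTranscendenceBasis K b) :
    ∃ j₀, AlgebraicIndependent K (fun j : {j : Fin (m + 2) // j ≠ j₀} =>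
      algebraMap (Polynomial F) (FractionRing (Polynomial F)) (Polynomial.C (x j) * Polynomial.X)) := by
  classical
  let F' := FractionRing (Polynomial F)
  have halg : Algebra.IsAlgebraic (Polynomial F) F' := by
    constructor
    intro z
    obtain ⟨p, q, hq, rfl⟩ := IsFractionRing.div_surjective (A := Polynomial F) z
    exact (isAlgebraic_algebraMap p).mul (isAlgebraic_algebraMap q).inv
  have h1 : IsTranscendenceBasis F (fun _ : Fin 1 => (Polynomial.X : Polynomial F)) :=
    IsTranscendenceBasis.polynomial _ _
  have h2 : IsTranscendenceBasis F (algebraMap (Polynomial F) F' ∘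
      (fun _ : Fin 1 => (Polynomial.X : Polynomial F))) := h1.algebraMap_comp
  have h3 := htb.sumElim_comp h2
  have h4 := h3.comp_equiv (finSumFinEquiv (m := 1) (n := m)).symm
  have h5 := h4.comp_equiv (finCongr (Nat.add_comm m 1))
  refine Pool.Agent.H918R2.Quad.exists_omit _ h5 (ρ := Fin (m + 2)) (by simp)
    (fun j => algebraMap (Polynomial F) F' (Polynomial.C (x j) * Polynomial.X)) ?_
  set w : Fin (m + 2) → F' :=
    fun j => algebraMap (Polynomial F) F' (Polynomial.C (x j) * Polynomial.X) with hw
  set L := IntermediateField.adjoin K (Set.range w) with hL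
  have hwL : ∀ j, w j ∈ L := fun j => IntermediateField.subset_adjoin K _ ⟨j, rfl⟩
  have hX0 : algebraMap (Polynomial F) F' Polynomial.X ≠ 0 := by
    intro h
    exact Polynomial.X_ne_zero (IsFractionRing.injective (Polynomial F) F' (by rw [h, map_zero]))
  have hXL : algebraMap (Polynomial F) F' Polynomial.X ∈ L := by
    have := hwL 0
    rw [hw] at this
    simpa [hx0] using this
  have hxL : ∀ j, algebraMap F F' (x j) ∈ L := by
    intro j
    have h6 : algebraMap F F' (x j) = w j / algebraMap (Polynomial F) F' Polynomial.X := by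
      rw [eq_div_iff hX0, hw]
      simp only [map_mul]
      rfl
    rw [h6]
    exact L.div_mem (hwL j) hXL
  have hFL : ∀ y : F, algebraMap F F' y ∈ L := by
    intro y
    have hy : y ∈ IntermediateField.adjoin K (Set.range x) := by rw [hgen]; trivial
    have h7 : IntermediateField.adjoin K (Set.range x) ≤
        L.comap (IsScalarTower.toAlgHom K F F') := by
      rw [IntermediateField.adjoin_le_iff]
      rintro _ ⟨j, rfl⟩
      exact hxL j
    exact h7 hy
  have hPL : ∀ p : Polynomial F, algebraMap (Polynomial F) F' p ∈ L := by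
    intro p
    induction p using Polynomial.induction_on' with
    | add p q hp hq => rw [map_add]; exact L.add_mem hp hq
    | monomial n a =>
      rw [← Polynomial.C_mul_X_pow_eq_monomial, map_mul, map_pow]
      exact L.mul_mem (hFL a) (L.pow_mem hXL n)
  rw [eq_top_iff]
  rintro z -
  obtain ⟨p, q, _, rfl⟩ := IsFractionRing.div_surjective (A := Polynomial F) z
  exact L.div_mem (hPL p) (hPL q)

end Pool.Agent.W418
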