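import Pool.Agent.H918R2.Quad.Global

/-! The module of cubic monomials with regular charts. -/

set_option autoImplicit false
set_option linter.unusedSectionVars false

namespace Pool.Agent.W418

open Pool.Agent.H918R2.Quad

variable {O K F : Type} [CommRing O] [IsDedekindDomain O] [Field K] [Algebra O K]
  [IsFractionRing O K] [Field F] [Algebra O F] [Algebra K F] [IsScalarTower O K F]

/-- The global module: all charts are regular; with control of the module. -/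
theorem exists_module2 [CharZero K] (hfin : ∀ 𝔭 : Ideal O, 𝔭.IsPrime → 𝔭 ≠ ⊥ → Finite (O ⧸ 𝔭))
    {m : ℕ} (a : Fin (m + 2) → O) (ha : ∀ i, a i ≠ 0) (x : Fin (m + 2) → F) (hx0 : x 0 = 1)
    (hrel : ∑ i, algebraMap O F (a i) * x i ^ 2 = 0)
    (hgen : IntermediateField.adjoin K (Set.range x) = ⊤)
    (b : Fin m → F) (htb : IsTranscendenceBasis K b) :
    ∃ M : Submodule O F, M.FG ∧ (∃ f ∈ M, f ≠ 0) ∧
      M ≤ Submodule.span O (G3 x) ∧
      (∀ y ∈ Submodule.span O (G3 x), ∃ s : O, s ≠ 0 ∧ s • y ∈ M) ∧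
      ∀ f ∈ M, f ≠ 0 → ∀ (q : Ideal (chart O M f)) [q.IsPrime],
        IsRegularLocalRing (Localization.AtPrime q) := by
  classical
  have hOK : Function.Injective (algebraMap O K) := IsFractionRing.injective O K
  have hOF : Function.Injective (algebraMap O F) := by
    rw [IsScalarTower.algebraMap_eq O K F]
    exact (algebraMap K F).injective.comp hOK
  have hchar : CharZero O := by
    constructor
    intro i j hij
    have h1 := congrArg (algebraMap O K) hij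
    simpa using h1
  set D : O := 2 * ∏ i, a i with hD
  have hD0 : D ≠ 0 := mul_ne_zero two_ne_zero (Finset.prod_ne_zero_iff.2 fun i _ => ha i)
  have hDspan : Ideal.span {D} ≠ ⊥ := by
    rw [Ne, Ideal.span_singleton_eq_bot]
    exact hD0
  let S : Finset (Ideal O) := (UniqueFactorizationMonoid.normalizedFactors (Ideal.span {D})).toFinset
  have hS : ∀ 𝔭, 𝔭 ∈ S ↔ 𝔭.IsPrime ∧ D ∈ 𝔭 := by
    intro 𝔭
    rw [Multiset.mem_toFinset, Ideal.mem_normalizedFactors_iff hDspan,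
      Ideal.span_singleton_le_iff_mem]
  have hS0 : ∀ 𝔭 ∈ S, 𝔭 ≠ ⊥ := by
    intro 𝔭 h𝔭 h
    have h1 := ((hS 𝔭).1 h𝔭).2
    rw [h] at h1
    exact hD0 h1
  have hSmax : ∀ 𝔭 ∈ S, 𝔭.IsMaximal := fun 𝔭 h𝔭 =>
    Ideal.IsPrime.isMaximal ((hS 𝔭).1 h𝔭).1 (hS0 𝔭 h𝔭)
  have hbad : ∀ 𝔭 : Ideal O, ∃ P : Submodule O F, 𝔭 ∈ S →
      ((∀ y ∈ P, ∃ s, s ∉ 𝔭 ∧ s • y ∈ Submodule.span O (G3 x)) ∧
      (∃ k : ℕ, ∀ c ∈ 𝔭 ^ k, ∀ y ∈ Submodule.span O (G3 x), c • y ∈ P) ∧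
      ∀ M : Submodule O F, M ≤ P → (∀ y ∈ P, ∃ s, s ∉ 𝔭 ∧ s • y ∈ M) → RegAt 𝔭 M) := by
    intro 𝔭
    by_cases h𝔭 : 𝔭 ∈ S
    · have hp := ((hS 𝔭).1 h𝔭).1
      have := hfin 𝔭 hp (hS0 𝔭 h𝔭)
      obtain ⟨P, hP⟩ := bad_local' 𝔭 (hS0 𝔭 h𝔭) a ha x hx0 hrel hgen b htb
      exact ⟨P, fun _ => hP⟩
    · exact ⟨⊥, fun h => absurd h h𝔭⟩
  choose P hP using hbad
  obtain ⟨M, hMN, hMP, hM1, hM2⟩ := glue (Submodule.span O (G3 x)) S hSmax P
    (fun 𝔭 h𝔭 => (hP 𝔭 h𝔭).1) (fun 𝔭 h𝔭 => (hP 𝔭 h𝔭).2.1)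
  have hbotS : (⊥ : Ideal O) ∉ S := fun h => hS0 ⊥ h rfl
  have hMbot : ∀ y ∈ Submodule.span O (G3 x), ∃ s : O, s ≠ 0 ∧ s • y ∈ M := by
    intro y hy
    obtain ⟨s, hs, hsy⟩ := hM2 ⊥ Ideal.isPrime_bot hbotS y hy
    exact ⟨s, fun h => hs (by rw [h]; exact Ideal.zero_mem _), hsy⟩
  have hxG : ∀ i, x i ∈ Submodule.span O (G3 x) := fun i =>
    Submodule.subset_span ⟨i, 0, 0, by rw [hx0]; ring⟩
  have h1G : (1 : F) ∈ Submodule.span O (G3 x) := by
    have := hxG 0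
    rwa [hx0] at this
  obtain ⟨t, ht0, htM⟩ := hMbot 1 h1G
  have htF : algebraMap O F t ≠ 0 := fun h => ht0 (hOF (by rw [h, map_zero]))
  refine ⟨M, ?_, ⟨t • 1, htM, ?_⟩, hMN, hMbot, ?_⟩
  · have hG3 : (G3 x).Finite := by
      have h1 : G3 x = Set.range (fun p : Fin (m + 2) × Fin (m + 2) × Fin (m + 2) =>
          x p.1 * x p.2.1 * x p.2.2) := by
        ext g
        constructor
        · rintro ⟨i, j, k, rfl⟩
          exact ⟨(i, j, k), rfl⟩
        · rintro ⟨⟨i, j, k⟩, rfl⟩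
          exact ⟨i, j, k, rfl⟩
      rw [h1]
      exact Set.finite_range _
    exact Submodule.FG.of_le (Submodule.fg_span hG3) hMN
  · rw [Algebra.smul_def, mul_one]
    exact htF
  · intro f hfM hf0 q hq
    have hpp : (q.comap (algebraMap O (chart O M f))).IsPrime := inferInstance
    by_cases h𝔭 : q.comap (algebraMap O (chart O M f)) ∈ S
    · exact (hP _ h𝔭).2.2 M (hMP _ h𝔭) (hM1 _ h𝔭) f hfM hf0 q rfl
    · refine good_local' (K := K) (q.comap (algebraMap O (chart O M f))) a ?_ x hx0 hrel hgen b htb M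
        hMN (hM2 _ hpp h𝔭) f hfM hf0 q rfl
      intro i hi
      apply h𝔭
      rw [hS]
      refine ⟨hpp, ?_⟩
      have h1 : D = (2 * a i) * ∏ j ∈ Finset.univ.erase i, a j := by
        rw [hD, ← Finset.mul_prod_erase _ _ (Finset.mem_univ i)]
        ring
      rw [h1]
      exact Ideal.mul_mem_right _ _ hi

end Pool.Agent.W418
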