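import Pool.Agent.W418.Desc
import Pool.Agent.W418.Quad1
import Pool.Agent.W418.Prim

/-! Regular models of diagonal quadrics. -/

set_option autoImplicit false
set_option linter.unusedSectionVars false
set_option linter.style.haveILetI false

open AlgebraicGeometry CategoryTheory CategoryTheory.Limits MvPolynomial NumberField
open scoped Pointwise

namespace Pool.Agent.W418

open Pool.Agent.H918R2.Quad

lemma G3_eq {F : Type} [Field F] {n : ℕ} (x : Fin n → F) :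
    G3 x = (Set.range x) ^ 3 := by
  ext g
  rw [pow_succ, pow_two]
  constructor
  · rintro ⟨i, j, k, rfl⟩
    exact Set.mul_mem_mul (Set.mul_mem_mul ⟨i, rfl⟩ ⟨j, rfl⟩) ⟨k, rfl⟩
  · rintro ⟨_, ⟨_, ⟨i, rfl⟩, _, ⟨j, rfl⟩, rfl⟩, _, ⟨k, rfl⟩, rfl⟩
    exact ⟨i, j, k, rfl⟩

theorem quadric_diag_int' {K : Type} [Field K] [NumberField K] {m : ℕ} (hm : 1 ≤ m)
    (a : Fin (m + 2) → 𝓞 K) (ha : ∀ i, a i ≠ 0) (a' : Fin (m + 2) → K)
    (haa : ∀ i, a' i = algebraMap (𝓞 K) K (a i)) {A : Type} [CommRing A] [Algebra K A]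
    (π : MvPolynomial (Fin (m + 2)) K →ₐ[K] A) (hπ : Function.Surjective π)
    (hker : RingHom.ker π = Ideal.span {∑ i, C (a' i) * X i ^ 2})
    (𝒜 : ℕ → Submodule K A) [GradedAlgebra 𝒜]
    (h𝒜 : ∀ d, 𝒜 d = (homogeneousSubmodule (Fin (m + 2)) K d).map π.toLinearMap)
    {F : Type} [Field F] (e : F ≃+* FractionRing (MvPolynomial (Fin (m + 1)) K ⧸
      Ideal.span {C (a' 0) + ∑ i : Fin (m + 1), C (a' i.succ) * X i ^ 2}))
    (Y : Scheme.{0}) (hY : Nonempty (Y ≅ Proj 𝒜)) : HasRegularModel Y := by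
  classical
  have ha' : ∀ i, a' i ≠ 0 := by
    intro i h
    rw [haa] at h
    exact ha i (IsFractionRing.injective (𝓞 K) K (by rw [h, map_zero]))
  obtain ⟨_, x, hx0, hrel, hgen, htb⟩ :=
    Pool.Agent.H968R2.Quad.quadric_field m hm a' ha' (F := F) e
  let _ : Algebra (𝓞 K) F := ((algebraMap K F).comp (algebraMap (𝓞 K) K)).toAlgebra
  have hst : IsScalarTower (𝓞 K) K F := IsScalarTower.of_algebraMap_eq fun _ => rfl
  have hfin : ∀ 𝔭 : Ideal (𝓞 K), 𝔭.IsPrime → 𝔭 ≠ ⊥ → Finite (𝓞 K ⧸ 𝔭) := by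
    intro 𝔭 _ h0
    exact Ideal.finiteQuotientOfFreeOfNeBot 𝔭 h0
  obtain ⟨M, hMfg, hM0, hMG, hGM, hreg⟩ := exists_module2 (K := K) hfin a ha x hx0
    (by
      rw [← hrel]
      refine Finset.sum_congr rfl fun i _ => ?_
      rw [haa, ← IsScalarTower.algebraMap_apply]) hgen _ htb
  have hG : Prime (∑ i, C (a' i) * X i ^ 2 : MvPolynomial (Fin (m + 2)) K) :=
    (irreducible_diag m 2 hm (by norm_num) a' ha').prime
  obtain ⟨ε, hε, hεgen, hε1⟩ := exists_eps x hx0 hgen _ htb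
    (∑ i, C (a' i) * X i ^ 2) hG 2 (isHomogeneous_diag _ 2 a') (by
      rw [map_sum, ← hrel]
      refine Finset.sum_congr rfl fun i _ => ?_
      rw [map_mul, map_pow, aeval_X, algHom_C]) π hπ hker 𝒜 h𝒜
  have hL : ((𝒜 1).map ε.toLinearMap) ^ 3 = Submodule.span K (G3 x) := by
    rw [hε1, Submodule.span_pow, G3_eq]
  refine hasRegularModel_of_module' (O := 𝓞 K) 𝒜 ε hε hεgen 3 (by norm_num) M ?_ ?_ hMfg hM0
    hreg Y hY
  · intro y hy
    rw [hL]
    have h1 := hMG hy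
    exact Submodule.span_subset_span (𝓞 K) K _ h1
  · intro y hy
    rw [hL] at hy
    obtain ⟨s, hs, hsy⟩ := exists_smul_span (O := 𝓞 K) (G3 x) y hy
    obtain ⟨t, ht, hty⟩ := hGM _ hsy
    exact ⟨t * s, mul_ne_zero ht hs, by rw [mul_smul]; exact hty⟩

/-- Diagonal quadrics over number fields have regular models. -/
theorem quadric_diag {K : Type} [Field K] [NumberField K] {m : ℕ} (hm : 1 ≤ m)
    (a : Fin (m + 2) → K) (ha : ∀ i, a i ≠ 0) {A : Type} [CommRing A] [Algebra K A]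
    (π : MvPolynomial (Fin (m + 2)) K →ₐ[K] A) (hπ : Function.Surjective π)
    (hker : RingHom.ker π = Ideal.span {∑ i, C (a i) * X i ^ 2})
    (𝒜 : ℕ → Submodule K A) [GradedAlgebra 𝒜]
    (h𝒜 : ∀ d, 𝒜 d = (homogeneousSubmodule (Fin (m + 2)) K d).map π.toLinearMap)
    (Y : Scheme.{0}) (hY : Nonempty (Y ≅ Proj 𝒜)) : HasRegularModel Y := by
  classical
  obtain ⟨c, hc⟩ := IsLocalization.exist_integer_multiples_of_finite (nonZeroDivisors (𝓞 K)) a
  choose b hb using hc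
  have hc0 : (c : 𝓞 K) ≠ 0 := nonZeroDivisors.ne_zero c.2
  have hcK : algebraMap (𝓞 K) K c ≠ 0 := by
    intro h
    exact hc0 (IsFractionRing.injective (𝓞 K) K (by rw [h, map_zero]))
  have hb' : ∀ i, algebraMap (𝓞 K) K (b i) = algebraMap (𝓞 K) K c * a i := by
    intro i
    rw [hb i, Algebra.smul_def]
  have hb0 : ∀ i, b i ≠ 0 := by
    intro i h
    have h1 := hb' i
    rw [h, map_zero] at h1
    exact mul_ne_zero hcK (ha i) h1.symm
  set a' : Fin (m + 2) → K := fun i => algebraMap (𝓞 K) K (b i) with ha'd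
  have ha' : ∀ i, a' i ≠ 0 := by
    intro i
    rw [ha'd]
    simp only
    rw [hb' i]
    exact mul_ne_zero hcK (ha i)
  have hg := Pool.Agent.H945R2.D.IRR_ok m 2 hm Nat.prime_two a' ha'
  have hgp : (Ideal.span {(C (a' 0) + ∑ i : Fin (m + 1), C (a' i.succ) * X i ^ 2 :
      MvPolynomial (Fin (m + 1)) K)}).IsPrime :=
    (Ideal.span_singleton_prime hg.ne_zero).2 hg.prime
  refine quadric_diag_int' hm b hb0 a' (fun i => rfl) π hπ ?_ 𝒜 h𝒜
    (F := FractionRing (MvPolynomial (Fin (m + 1)) K ⧸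
      Ideal.span {C (a' 0) + ∑ i : Fin (m + 1), C (a' i.succ) * X i ^ 2}))
    (RingEquiv.refl _) Y hY
  rw [hker]
  have h1 : (∑ i, C (a' i) * X i ^ 2 : MvPolynomial (Fin (m + 2)) K) =
      C (algebraMap (𝓞 K) K c) * ∑ i, C (a i) * X i ^ 2 := by
    rw [Finset.mul_sum]
    refine Finset.sum_congr rfl fun i _ => ?_
    rw [ha'd]
    simp only
    rw [hb' i, C_mul, mul_assoc]
  rw [h1]
  exact (Ideal.span_singleton_mul_left_unit ((isUnit_iff_ne_zero.2 hcK).map C) _).symm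

end Pool.Agent.W418
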