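import Pool.Agent.W418.Quad2

/-! Regular models of smooth quadrics. -/

set_option autoImplicit false
set_option linter.unusedSectionVars false
set_option linter.style.haveILetI false

open AlgebraicGeometry CategoryTheory CategoryTheory.Limits MvPolynomial

namespace Pool.Agent.W418

theorem exists_diag {K : Type} [Field K] [CharZero K] {n : ℕ} (S : Matrix (Fin n) (Fin n) K)
    (hS : S.IsSymm) (hdet : S.det ≠ 0) :
    ∃ (v : Module.Basis (Fin n) K (Fin n → K)) (c : Fin n → K), (∀ i, c i ≠ 0) ∧
      ∀ i j, ∑ k, ∑ l, v i k * S k l * v j l = if i = j then c i else 0 := by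
  classical
  let B : LinearMap.BilinForm K (Fin n → K) := Matrix.toBilin' S
  have hB : LinearMap.IsSymm B := by
    constructor
    intro x y
    simp only [B, RingHom.id_apply]
    rw [Matrix.toBilin'_apply, Matrix.toBilin'_apply, Finset.sum_comm]
    refine Finset.sum_congr rfl fun i _ => Finset.sum_congr rfl fun j _ => ?_
    rw [hS.apply i j]
    ring
  have hinv : Invertible (2 : K) := invertibleOfNonzero two_ne_zero
  obtain ⟨v₀, hv₀⟩ := LinearMap.BilinForm.exists_orthogonal_basis hB
  have hn : Module.finrank K (Fin n → K) = n := by simp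
  let v := v₀.reindex (finCongr hn)
  have hv : B.IsOrthoᵢ v := by
    rw [LinearMap.isOrthoᵢ_def] at hv₀ ⊢
    intro i j hij
    have := hv₀ ((finCongr hn).symm i) ((finCongr hn).symm j)
      (fun h => hij ((finCongr hn).symm.injective h))
    simpa [v] using this
  have hnd : B.Nondegenerate :=
    LinearMap.BilinForm.nondegenerate_toBilin'_of_det_ne_zero' S hdet
  have hne : ∀ i, B (v i) (v i) ≠ 0 := by
    intro i h
    exact hv.not_isOrtho_basis_self_of_separatingLeft hnd.1 i h
  refine ⟨v, fun i => B (v i) (v i), hne, ?_⟩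
  intro i j
  have h1 : ∑ k, ∑ l, v i k * S k l * v j l = B (v i) (v j) := (Matrix.toBilin'_apply _ _ _).symm
  rw [h1]
  split_ifs with h
  · rw [h]
  · exact hv h

/-- Change of coordinates. -/
noncomputable def chg {K : Type} [Field K] {n : ℕ} (p : Fin n → Fin n → K) :
    MvPolynomial (Fin n) K →ₐ[K] MvPolynomial (Fin n) K :=
  aeval (fun j => ∑ i, C (p i j) * X i)

theorem chg_X {K : Type} [Field K] {n : ℕ} (p : Fin n → Fin n → K) (j : Fin n) :
    chg p (X j) = ∑ i, C (p i j) * X i := aeval_X _ _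

theorem chg_comp {K : Type} [Field K] {n : ℕ} (p p' : Fin n → Fin n → K)
    (h : ∀ j k, ∑ i, p i j * p' k i = if j = k then 1 else 0) :
    (chg p').comp (chg p) = AlgHom.id K _ := by
  refine MvPolynomial.algHom_ext fun j => ?_
  rw [AlgHom.comp_apply, chg_X, map_sum]
  simp only [map_mul, chg_X, algHom_C, AlgHom.id_apply, MvPolynomial.algebraMap_eq]
  simp only [Finset.mul_sum]
  rw [Finset.sum_comm]
  have h1 : ∀ k, ∑ i, C (p i j) * (C (p' k i) * (X k : MvPolynomial (Fin n) K)) =
      C (if j = k then 1 else 0) * X k := by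
    intro k
    rw [← h j k, map_sum, Finset.sum_mul]
    refine Finset.sum_congr rfl fun i _ => ?_
    rw [C_mul]
    ring
  rw [Finset.sum_congr rfl fun k _ => h1 k]
  rw [Finset.sum_eq_single j]
  · simp
  · intro b _ hb
    rw [if_neg (Ne.symm hb), map_zero, zero_mul]
  · intro h; exact absurd (Finset.mem_univ j) h

theorem chg_homogeneous {K : Type} [Field K] {n : ℕ} (p : Fin n → Fin n → K) (d : ℕ)
    (P : MvPolynomial (Fin n) K) (hP : P.IsHomogeneous d) : (chg p P).IsHomogeneous d := by
  have h1 := hP.aeval (n := 1) (fun j => ∑ i, C (p i j) * (X i : MvPolynomial (Fin n) K)) (by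
    intro j
    refine IsHomogeneous.sum _ _ _ fun i _ => ?_
    have h3 := (isHomogeneous_C (Fin n) (p i j)).mul (isHomogeneous_X K i)
    rwa [zero_add] at h3)
  rwa [one_mul] at h1

/-- The quadratic form of a matrix. -/
theorem quadric_general {K : Type} [Field K] [NumberField K] {m : ℕ} (hm : 1 ≤ m)
    (S : Matrix (Fin (m + 2)) (Fin (m + 2)) K) (hS : S.IsSymm) (hdet : S.det ≠ 0)
    {A : Type} [CommRing A] [Algebra K A]
    (π : MvPolynomial (Fin (m + 2)) K →ₐ[K] A) (hπ : Function.Surjective π)
    (hker : RingHom.ker π = Ideal.span {∑ k, ∑ l, C (S k l) * X k * X l})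
    (𝒜 : ℕ → Submodule K A) [GradedAlgebra 𝒜]
    (h𝒜 : ∀ d, 𝒜 d = (homogeneousSubmodule (Fin (m + 2)) K d).map π.toLinearMap)
    (Y : Scheme.{0}) (hY : Nonempty (Y ≅ Proj 𝒜)) : HasRegularModel Y := by
  classical
  obtain ⟨v, c, hc, hvS⟩ := exists_diag S hS hdet
  let p : Fin (m + 2) → Fin (m + 2) → K := fun i j => v i j
  let p' : Fin (m + 2) → Fin (m + 2) → K := fun k i => v.repr (Pi.single k 1) i
  have hpp : ∀ j k, ∑ i, p i j * p' k i = if j = k then 1 else 0 := by
    intro j k
    have h1 := congrFun (v.sum_repr (Pi.single k (1 : K))) j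
    rw [Finset.sum_apply] at h1
    simp only [Pi.smul_apply, smul_eq_mul] at h1
    rw [Pi.single_apply] at h1
    rw [← h1]
    exact Finset.sum_congr rfl fun i _ => mul_comm _ _
  have hpp' : ∀ j k, ∑ i, p' i j * p k i = if j = k then 1 else 0 := by
    intro j k
    have h1 : v k = ∑ i, v k i • Pi.single i (1 : K) := by
      funext l
      rw [Finset.sum_apply]
      simp [Pi.single_apply]
    have h2 := congrArg (fun z => v.repr z j) h1
    simp only [Module.Basis.repr_self, map_sum, map_smul, Finsupp.coe_finsetSum,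
      Finset.sum_apply, Finsupp.coe_smul, Pi.smul_apply, smul_eq_mul] at h2
    have h3 : ∑ i, p' i j * p k i = (Finsupp.single k (1 : K)) j := by
      rw [h2]
      exact Finset.sum_congr rfl fun i _ => mul_comm _ _
    rw [h3, Finsupp.single_apply]
    simp only [eq_comm]
  have e1 : (chg p').comp (chg p) = AlgHom.id K _ := chg_comp p p' hpp
  have e2 : (chg p).comp (chg p') = AlgHom.id K _ := chg_comp p' p hpp'
  have hq : chg p (∑ k, ∑ l, C (S k l) * X k * X l) = ∑ i, C (c i) * X i ^ 2 := by
    simp only [map_sum, map_mul, chg_X, algHom_C, MvPolynomial.algebraMap_eq]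
    have h1 : ∀ k l, C (S k l) * (∑ i, C (p i k) * (X i : MvPolynomial (Fin (m + 2)) K)) *
        (∑ j, C (p j l) * X j) = ∑ i, ∑ j, C (p i k * S k l * p j l) * (X i * X j) := by
      intro k l
      rw [mul_assoc, Finset.sum_mul_sum, Finset.mul_sum]
      refine Finset.sum_congr rfl fun i _ => ?_
      rw [Finset.mul_sum]
      refine Finset.sum_congr rfl fun j _ => ?_
      rw [C_mul, C_mul]
      ring
    simp only [h1]
    have h2 : (∑ k, ∑ l, ∑ i, ∑ j, C (p i k * S k l * p j l) *
        ((X i : MvPolynomial (Fin (m + 2)) K) * X j)) =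
        ∑ i, ∑ j, C (∑ k, ∑ l, p i k * S k l * p j l) * (X i * X j) := by
      simp only [map_sum, Finset.sum_mul]
      rw [Finset.sum_congr rfl fun k _ => Finset.sum_comm]
      rw [Finset.sum_comm]
      refine Finset.sum_congr rfl fun i _ => ?_
      rw [Finset.sum_congr rfl fun k _ => Finset.sum_comm]
      rw [Finset.sum_comm]
    rw [h2]
    refine Finset.sum_congr rfl fun i _ => ?_
    rw [Finset.sum_eq_single i]
    · rw [hvS i i, if_pos rfl]
      ring
    · intro j _ hj
      rw [hvS i j, if_neg (Ne.symm hj), map_zero, zero_mul]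
    · intro h; exact absurd (Finset.mem_univ i) h
  have hinv1 : ∀ P, chg p' (chg p P) = P := fun P => DFunLike.congr_fun e1 P
  have hinv2 : ∀ P, chg p (chg p' P) = P := fun P => DFunLike.congr_fun e2 P
  refine quadric_diag hm c hc (π.comp (chg p')) ?_ ?_ 𝒜 ?_ Y hY
  · intro a
    obtain ⟨P, rfl⟩ := hπ a
    exact ⟨chg p P, by rw [AlgHom.comp_apply, hinv1]⟩
  · ext P
    rw [RingHom.mem_ker, Ideal.mem_span_singleton]
    have h1 : (π.comp (chg p')) P = 0 ↔ chg p' P ∈ RingHom.ker π := by
      rw [RingHom.mem_ker]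
      rfl
    have h2 : (π.comp (chg p')) P = 0 ↔
        (∑ k, ∑ l, C (S k l) * X k * X l : MvPolynomial (Fin (m + 2)) K) ∣ chg p' P := by
      rw [h1, hker, Ideal.mem_span_singleton]
    refine Iff.trans h2 ?_
    constructor
    · intro h
      have h3 := map_dvd (chg p) h
      rwa [hq, hinv2] at h3
    · intro h
      have h3 := map_dvd (chg p') h
      rwa [← hq, hinv1] at h3
  · intro d
    rw [h𝒜]
    apply le_antisymm
    · rintro _ ⟨P, hP, rfl⟩
      refine ⟨chg p P, chg_homogeneous p d P hP, ?_⟩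
      change π (chg p' (chg p P)) = π P
      rw [hinv1]
    · rintro _ ⟨P, hP, rfl⟩
      exact ⟨chg p' P, chg_homogeneous p' d P hP, rfl⟩

end Pool.Agent.W418
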