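import Pool.Agent.H918R2.Quad.Local

/-! Independence of the regularity of the charts of the choice of the module. -/

set_option autoImplicit false
set_option linter.unusedSectionVars false

open scoped Pointwise

namespace Pool.Agent.W418

open Pool.Agent.H918R2.Quad

section loc

variable {F A : Type} [Field F] [CommRing A]

/-- A local subring which is the localization of a subring at a prime. -/
theorem regular_loc_iff (ι : A →+* F) (hι : Function.Injective ι) (q : Ideal A) [q.IsPrime]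
    (𝒪 : Subring F) (hmem : ∀ x, x ∈ 𝒪 ↔ ∃ a b : A, b ∉ q ∧ x = ι a / ι b) :
    IsRegularLocalRing 𝒪 ↔ IsRegularLocalRing (Localization.AtPrime q) := by
  have hne : ∀ b : A, b ∉ q → ι b ≠ 0 := by
    intro b hb h
    apply hb
    have : b = 0 := hι (by rw [h, map_zero])
    rw [this]
    exact q.zero_mem
  let ψ : Localization.AtPrime q →+* F := IsLocalization.lift (M := q.primeCompl) (g := ι)
    (fun b => IsUnit.mk0 _ (hne b b.2))
  have hψ : ∀ (a : A) (b : q.primeCompl), ψ (IsLocalization.mk' _ a b) = ι a / ι b := by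
    intro a b
    rw [IsLocalization.lift_mk'_spec, mul_div_cancel₀]
    exact hne b b.2
  have hψinj : Function.Injective ψ := by
    rw [injective_iff_map_eq_zero]
    intro x hx
    obtain ⟨a, b, rfl⟩ := IsLocalization.exists_mk'_eq q.primeCompl x
    rw [hψ, div_eq_zero_iff] at hx
    have h1 : ι a = 0 := hx.resolve_right (hne b b.2)
    have h2 : a = 0 := hι (by rw [h1, map_zero])
    rw [h2, IsLocalization.mk'_zero]
  have hmem' : ∀ x, x ∈ ψ.range ↔ ∃ a b : A, b ∉ q ∧ x = ι a / ι b := by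
    intro x
    constructor
    · rintro ⟨y, rfl⟩
      obtain ⟨a, b, rfl⟩ := IsLocalization.exists_mk'_eq q.primeCompl y
      exact ⟨a, b, b.2, hψ a b⟩
    · rintro ⟨a, b, hb, rfl⟩
      exact ⟨IsLocalization.mk' _ a ⟨b, hb⟩, hψ a ⟨b, hb⟩⟩
  have heq : ψ.range = 𝒪 := by
    ext x
    rw [hmem', hmem]
  subst heq
  have e : Localization.AtPrime q ≃+* ψ.range := RingEquiv.ofBijective ψ.rangeRestrict
      ⟨fun x y h => hψinj (congrArg Subtype.val h), ψ.rangeRestrict_surjective⟩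
  exact ⟨fun h => IsRegularLocalRing.of_ringEquiv e.symm,
    fun h => IsRegularLocalRing.of_ringEquiv e⟩

end loc

variable {O F : Type} [CommRing O] [Field F] [Algebra O F]

/-- Regularity of the charts depends only on the module up to scaling and localization. -/
theorem regAt_congr (𝔭 : Ideal O) [𝔭.IsPrime] (M₁ M₂ : Submodule O F) (c : F) (hc : c ≠ 0)
    (h12 : ∀ y ∈ M₂, ∃ s : O, s ∉ 𝔭 ∧ s • (c * y) ∈ M₁)
    (h21 : ∀ y ∈ M₁, ∃ s : O, s ∉ 𝔭 ∧ s • (c⁻¹ * y) ∈ M₂) (h : RegAt 𝔭 M₁) : RegAt 𝔭 M₂ := by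
  intro f hf hf0 q hq hq𝔭
  obtain ⟨𝒪, hloc, hmem, hU, hreg⟩ := exists_loc ((chart O M₂ f).val : chart O M₂ f →+* F)
    Subtype.val_injective q
  apply hreg
  have hval : ∀ a : chart O M₂ f, ((chart O M₂ f).val : chart O M₂ f →+* F) a = (a : F) :=
    fun a => rfl
  simp only [hval] at hmem hU
  have hOU : ∀ s : O, U 𝒪 (algebraMap O F s) ↔ s ∉ 𝔭 := by
    intro s
    have h1 := hU (algebraMap O (chart O M₂ f) s)
    rw [← hq𝔭, Ideal.mem_comap]
    exact h1
  have hchart : ∀ a ∈ chart O M₂ f, a ∈ 𝒪 := by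
    intro a ha
    rw [hmem]
    refine ⟨⟨a, ha⟩, 1, (Ideal.ne_top_iff_one q).1 Ideal.IsPrime.ne_top', by simp⟩
  obtain ⟨s₀, hs₀, hf₁⟩ := h12 f hf
  have hs₀U := (hOU s₀).2 hs₀
  set f₁ : F := s₀ • (c * f) with hf₁def
  have hf₁' : f₁ = algebraMap O F s₀ * (c * f) := by rw [hf₁def, Algebra.smul_def]
  have hf₁0 : f₁ ≠ 0 := by
    rw [hf₁']
    exact mul_ne_zero hs₀U.1 (mul_ne_zero hc hf0)
  have hB₁ : ∀ a ∈ chart O M₁ f₁, a ∈ 𝒪 := by
    intro a ha
    induction ha using Algebra.adjoin_induction with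
    | mem x hx =>
      obtain ⟨m, hm, rfl⟩ := hx
      obtain ⟨s, hs, hsm⟩ := h21 m hm
      have hsU := (hOU s).2 hs
      have h1 : (s • (c⁻¹ * m)) / f ∈ 𝒪 := hchart _ (Algebra.subset_adjoin ⟨_, hsm, rfl⟩)
      have h2 : m / f₁ = (s • (c⁻¹ * m)) / f * ((algebraMap O F s)⁻¹ * (algebraMap O F s₀)⁻¹) := by
        have := hsU.1
        have := hs₀U.1
        rw [hf₁', Algebra.smul_def]
        field_simp
      rw [h2]
      exact 𝒪.mul_mem h1 (𝒪.mul_mem hsU.2.2 hs₀U.2.2)
    | algebraMap r => exact hchart _ (Subalgebra.algebraMap_mem _ _)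
    | add x y _ _ hx hy => exact 𝒪.add_mem hx hy
    | mul x y _ _ hx hy => exact 𝒪.mul_mem hx hy
  let q₁ : Ideal (chart O M₁ f₁) :=
    { carrier := {a | ¬ U 𝒪 (a : F)}
      zero_mem' := not_U_zero
      add_mem' := by
        intro a b ha hb hab
        rcases hloc _ _ (hB₁ _ a.2) (hB₁ _ b.2) hab with h | h
        · exact ha h
        · exact hb h
      smul_mem' := by
        intro a b hb hab
        exact hb (U.of_mul_right (hB₁ _ a.2) (hB₁ _ b.2) hab) }
  have hq₁ : ∀ a : chart O M₁ f₁, a ∈ q₁ ↔ ¬ U 𝒪 (a : F) := fun a => Iff.rfl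
  have hq₁p : q₁.IsPrime := by
    refine ⟨?_, ?_⟩
    · rw [Ideal.ne_top_iff_one, hq₁, not_not]
      exact U_one
    · intro a b hab
      by_contra hcon
      push Not at hcon
      rw [hq₁, hq₁, not_not, not_not] at hcon
      exact ((hq₁ _).1 hab) (hcon.1.mul hcon.2)
  have hq₁𝔭 : q₁.comap (algebraMap O (chart O M₁ f₁)) = 𝔭 := by
    ext s
    rw [Ideal.mem_comap, hq₁]
    have h1 := hOU s
    constructor
    · intro h2
      by_contra h3
      exact h2 (h1.2 h3)
    · intro h2 h3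
      exact (h1.1 h3) h2
  have h₁ := h f₁ hf₁ hf₁0 q₁ hq₁𝔭
  refine (regular_loc_iff ((chart O M₁ f₁).val : chart O M₁ f₁ →+* F)
    Subtype.val_injective q₁ 𝒪 ?_).2 h₁
  -- membership
  have hcl : ∀ a ∈ chart O M₂ f, ∃ s : O, s ∉ 𝔭 ∧ algebraMap O F s * a ∈ chart O M₁ f₁ := by
    intro a ha
    induction ha using Algebra.adjoin_induction with
    | mem x hx =>
      obtain ⟨m, hm, rfl⟩ := hx
      obtain ⟨s, hs, hsm⟩ := h12 m hm
      refine ⟨s, hs, ?_⟩
      have h2 : algebraMap O F s * (m / f) = algebraMap O F s₀ * ((s • (c * m)) / f₁) := by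
        have := hs₀U.1
        rw [hf₁', Algebra.smul_def]
        field_simp
      rw [h2]
      exact Subalgebra.mul_mem _ (Subalgebra.algebraMap_mem _ _)
        (Algebra.subset_adjoin ⟨_, hsm, rfl⟩)
    | algebraMap r =>
      refine ⟨1, (Ideal.ne_top_iff_one 𝔭).1 Ideal.IsPrime.ne_top', ?_⟩
      rw [map_one, one_mul]
      exact Subalgebra.algebraMap_mem _ _
    | add x y _ _ hx hy =>
      obtain ⟨s, hs, hsx⟩ := hx
      obtain ⟨t, ht, hty⟩ := hy
      refine ⟨s * t, fun h => (Ideal.IsPrime.mem_or_mem ‹𝔭.IsPrime› h).elim hs ht, ?_⟩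
      have h2 : algebraMap O F (s * t) * (x + y) = algebraMap O F t * (algebraMap O F s * x) +
          algebraMap O F s * (algebraMap O F t * y) := by
        rw [map_mul]; ring
      rw [h2]
      exact Subalgebra.add_mem _ (Subalgebra.mul_mem _ (Subalgebra.algebraMap_mem _ _) hsx)
        (Subalgebra.mul_mem _ (Subalgebra.algebraMap_mem _ _) hty)
    | mul x y _ _ hx hy =>
      obtain ⟨s, hs, hsx⟩ := hx
      obtain ⟨t, ht, hty⟩ := hy
      refine ⟨s * t, fun h => (Ideal.IsPrime.mem_or_mem ‹𝔭.IsPrime› h).elim hs ht, ?_⟩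
      have h2 : algebraMap O F (s * t) * (x * y) = (algebraMap O F s * x) *
          (algebraMap O F t * y) := by
        rw [map_mul]; ring
      rw [h2]
      exact Subalgebra.mul_mem _ hsx hty
  intro x
  constructor
  · intro hx
    obtain ⟨a, b, hb, rfl⟩ := (hmem x).1 hx
    obtain ⟨s, hs, hsa⟩ := hcl a a.2
    obtain ⟨t, ht, htb⟩ := hcl b b.2
    have hsU := (hOU s).2 hs
    have htU := (hOU t).2 ht
    have hbU := (hU b).2 hb
    refine ⟨⟨algebraMap O F t * (algebraMap O F s * a),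
      Subalgebra.mul_mem _ (Subalgebra.algebraMap_mem _ _) hsa⟩,
      ⟨algebraMap O F s * (algebraMap O F t * b),
      Subalgebra.mul_mem _ (Subalgebra.algebraMap_mem _ _) htb⟩, ?_, ?_⟩
    · rw [hq₁, not_not]
      exact hsU.mul (htU.mul hbU)
    · change (a : F) / b = (algebraMap O F t * (algebraMap O F s * a)) /
        (algebraMap O F s * (algebraMap O F t * b))
      have h1 := hsU.1
      have h2 := htU.1
      have h3 := hbU.1
      field_simp
  · rintro ⟨a, b, hb, rfl⟩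
    rw [hq₁, not_not] at hb
    change (a : F) / (b : F) ∈ 𝒪
    rw [div_eq_mul_inv]
    exact 𝒪.mul_mem (hB₁ _ a.2) hb.2.2

end Pool.Agent.W418
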