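import Pool.Agent.W982.TA.Stm

/-!
# G13: lattice triangles with midpoints only
-/

set_option autoImplicit false

namespace Pool.Agent.W982.TA

namespace W418G13

theorem cyc (a b c : Pt) : dt b c a = dt a b c := by
  simp only [dt]; ring

/-- all three midpoints are lattice points -/
theorem three (h : TaskG12) (a m n : Pt) (hD : 0 < dt a (m + m - a) (n + n - a))
    (hr : ∀ r, InTri a (m + m - a) (n + n - a) r → r = a ∨ r = m + m - a ∨ r = n + n - a ∨
      r + r = a + (m + m - a) ∨ r + r = (m + m - a) + (n + n - a) ∨ r + r = a + (n + n - a)) :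
    dt a (m + m - a) (n + n - a) = 4 := by
  have hd : dt a (m + m - a) (n + n - a) = 4 * dt a m n := by
    simp only [dt, Prod.fst_sub, Prod.fst_add, Prod.snd_sub, Prod.snd_add]; ring
  have hpos : 0 < dt a m n := by rw [hd] at hD; linarith
  have hone : dt a m n = 1 := by
    refine h a m n hpos fun r hri => ?_
    obtain ⟨h1, h2, h3⟩ := hri
    have e1 : dt a (m + m - a) r = 2 * dt a m r := by
      simp only [dt, Prod.fst_sub, Prod.fst_add, Prod.snd_sub, Prod.snd_add]; ring
    have e2 : dt (m + m - a) (n + n - a) r = 4 * dt m n r + 2 * dt n a r + 2 * dt a m r := by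
      simp only [dt, Prod.fst_sub, Prod.fst_add, Prod.snd_sub, Prod.snd_add]; ring
    have e3 : dt (n + n - a) a r = 2 * dt n a r := by
      simp only [dt, Prod.fst_sub, Prod.fst_add, Prod.snd_sub, Prod.snd_add]; ring
    rcases hr r ⟨by rw [e1]; linarith, by rw [e2]; linarith, by rw [e3]; linarith⟩ with
      hh | hh | hh | hh | hh | hh
    · exact Or.inl hh
    · exfalso
      have : dt m n r = - dt a m n := by
        rw [hh]
        simp only [dt, Prod.fst_sub, Prod.fst_add, Prod.snd_sub, Prod.snd_add]; ring
      linarith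
    · exfalso
      have : dt m n r = - dt a m n := by
        rw [hh]
        simp only [dt, Prod.fst_sub, Prod.fst_add, Prod.snd_sub, Prod.snd_add]; ring
      linarith
    · right; left
      have h4 : r.1 + r.1 = m.1 + m.1 := by
        have := congrArg Prod.fst hh
        simp only [Prod.fst_sub, Prod.fst_add] at this
        linarith
      have h5 : r.2 + r.2 = m.2 + m.2 := by
        have := congrArg Prod.snd hh
        simp only [Prod.snd_sub, Prod.snd_add] at this
        linarith
      exact Prod.ext (by omega) (by omega)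
    · exfalso
      have h4 : r.1 = m.1 + n.1 - a.1 := by
        have := congrArg Prod.fst hh
        simp only [Prod.fst_sub, Prod.fst_add] at this
        omega
      have h5 : r.2 = m.2 + n.2 - a.2 := by
        have := congrArg Prod.snd hh
        simp only [Prod.snd_sub, Prod.snd_add] at this
        omega
      have : dt m n r = - dt a m n := by
        simp only [dt, h4, h5]; ring
      linarith
    · right; right
      have h4 : r.1 + r.1 = n.1 + n.1 := by
        have := congrArg Prod.fst hh
        simp only [Prod.fst_sub, Prod.fst_add] at this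
        linarith
      have h5 : r.2 + r.2 = n.2 + n.2 := by
        have := congrArg Prod.snd hh
        simp only [Prod.snd_sub, Prod.snd_add] at this
        linarith
      exact Prod.ext (by omega) (by omega)
  rw [hd, hone]
  norm_num

/-- the midpoint of `a b` is a lattice point -/
theorem side (h : TaskG12) (a b c m : Pt) (hm : m + m = a + b) (hD : 0 < dt a b c)
    (hr : ∀ r, InTri a b c r → r = a ∨ r = b ∨ r = c ∨ r + r = a + b ∨ r + r = b + c ∨
      r + r = a + c) :
    dt a b c ≤ 2 ∨ (dt a b c = 4 ∧ (∃ r, r + r = a + b) ∧ (∃ r, r + r = b + c) ∧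
      ∃ r, r + r = a + c) := by
  have hb : b = m + m - a := by rw [hm]; abel
  by_cases hn : ∃ n, n + n = a + c
  · obtain ⟨n, hn⟩ := hn
    have hc : c = n + n - a := by rw [hn]; abel
    right
    refine ⟨?_, ⟨m, hm⟩, ⟨m + n - a, ?_⟩, ⟨n, hn⟩⟩
    · rw [hb, hc] at hD hr ⊢
      exact three h a m n hD hr
    · rw [hb, hc]; abel
  · have hn2 : ¬ ∃ p, p + p = b + c := by
      rintro ⟨p, hp⟩
      refine hn ⟨p - m + a, ?_⟩
      have h1 : p - m + a + (p - m + a) = (p + p) - (m + m) + (a + a) := by abel
      rw [h1, hp, hm]; abel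
    left
    have hd : dt a b c = 2 * dt a m c := by
      rw [hb]
      simp only [dt, Prod.fst_sub, Prod.fst_add, Prod.snd_sub, Prod.snd_add]; ring
    have hpos : 0 < dt a m c := by rw [hd] at hD; linarith
    have hone : dt a m c = 1 := by
      refine h a m c hpos fun r hri => ?_
      obtain ⟨h1, h2, h3⟩ := hri
      have e1 : dt a b r = 2 * dt a m r := by
        rw [hb]
        simp only [dt, Prod.fst_sub, Prod.fst_add, Prod.snd_sub, Prod.snd_add]; ring
      have e2 : dt b c r = 2 * dt m c r + dt c a r := by
        rw [hb]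
        simp only [dt, Prod.fst_sub, Prod.fst_add, Prod.snd_sub, Prod.snd_add]; ring
      rcases hr r ⟨by rw [e1]; linarith, by rw [e2]; linarith, h3⟩ with
        hh | hh | hh | hh | hh | hh
      · exact Or.inl hh
      · exfalso
        have : dt m c r = - dt a m c := by
          rw [hh, hb]
          simp only [dt, Prod.fst_sub, Prod.fst_add, Prod.snd_sub, Prod.snd_add]; ring
        linarith
      · exact Or.inr (Or.inr hh)
      · right; left
        rw [← hm] at hh
        have h4 := congrArg Prod.fst hh
        have h5 := congrArg Prod.snd hh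
        simp only [Prod.fst_add, Prod.snd_add] at h4 h5
        exact Prod.ext (by omega) (by omega)
      · exact absurd ⟨r, hh⟩ hn2
      · exact absurd ⟨r, hh⟩ hn
    rw [hd, hone]
    norm_num

end W418G13

open W418G13

theorem g13 (h : TaskG12) : TaskG13 := by
  intro a b c hD hr
  by_cases h1 : ∃ m, m + m = a + b
  · obtain ⟨m, hm⟩ := h1
    exact side h a b c m hm hD hr
  by_cases h2 : ∃ m, m + m = b + c
  · obtain ⟨m, hm⟩ := h2
    have hD' : 0 < dt b c a := by rw [cyc]; exact hD
    rcases side h b c a m hm hD' (fun r hri => by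
      have h3 := hr r ⟨hri.2.2, hri.1, hri.2.1⟩
      rw [add_comm c a, add_comm b a]
      tauto) with h4 | ⟨h4, h5, h6, h7⟩
    · left; rw [← cyc]; exact h4
    · right
      rw [cyc] at h4
      rw [add_comm c a] at h6
      rw [add_comm b a] at h7
      exact ⟨h4, h7, h5, h6⟩
  by_cases h3 : ∃ m, m + m = c + a
  · obtain ⟨m, hm⟩ := h3
    have hcyc : dt c a b = dt a b c := by simp only [dt]; ring
    have hD' : 0 < dt c a b := by rw [hcyc]; exact hD
    rcases side h c a b m hm hD' (fun r hri => by
      have h3 := hr r ⟨hri.2.1, hri.2.2, hri.1⟩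
      rw [add_comm c a, add_comm c b]
      tauto) with h4 | ⟨h4, h5, h6, h7⟩
    · left; rw [← hcyc]; exact h4
    · right
      rw [hcyc] at h4
      rw [add_comm c a] at h5
      rw [add_comm c b] at h7
      exact ⟨h4, h6, h7, h5⟩
  left
  have hone : dt a b c = 1 := by
    refine h a b c hD fun r hri => ?_
    rcases hr r hri with hh | hh | hh | hh | hh | hh
    · exact Or.inl hh
    · exact Or.inr (Or.inl hh)
    · exact Or.inr (Or.inr hh)
    · exact absurd ⟨r, hh⟩ h1
    · exact absurd ⟨r, hh⟩ h2
    · exact absurd ⟨r, by rw [hh, add_comm]⟩ h3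
  rw [hone]
  norm_num

end Pool.Agent.W982.TA
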